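import Pool.Agent.helper8.Aim.StepC

set_option autoImplicit false
set_option linter.unusedSectionVars false

namespace Pool.Agent.helper8.AimL

section fin
variable {Q P : Type} [Lp Q] [Lp P] [Aim Q] [Aim P] [Cl3 P] {E : CExt Q P}

theorem z2_of_G1 (w : Dt E) (h1 : ∀ x, IsCen (G1 (T x) w).1) (h2 : ∀ x y, IsCen (G1 (Li x y) w).1)
    (h3 : ∀ x y, IsCen (G1 (Ri x y) w).1) : IsZ2 w.1 := by
  apply E.z2_of_cen
  have key : ∀ φ : Inn Q, IsCen (G1 φ w).1 → (E.bar φ).1 (E.π w.1) = E.π w.1 := by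
    intro φ h
    rw [← E.bar_spec, G1_spec]
    exact E.kz ⟨_, h⟩ w.1
  apply isCen_of_fix
  · intro x
    obtain ⟨a, rfl⟩ := E.surj x
    rw [← E.bar_T]; exact key _ (h1 a)
  · intro x y
    obtain ⟨a, rfl⟩ := E.surj x
    obtain ⟨b, rfl⟩ := E.surj y
    rw [← E.bar_Li]; exact key _ (h2 a b)
  · intro x y
    obtain ⟨a, rfl⟩ := E.surj x
    obtain ⟨b, rfl⟩ := E.surj y
    rw [← E.bar_Ri]; exact key _ (h3 a b)

theorem genSet_sub_Mlt : Subgroup.closure (genSet Q) ≤ Mlt Q := by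
  rw [Subgroup.closure_le]
  rintro g ⟨x, y, rfl | rfl | rfl⟩
  · exact Tp_mem x
  · exact Lip_mem x y
  · exact Rip_mem x y

theorem disp_closure (h : ∀ g ∈ genSet Q, ∀ p : Q, ∃ u : A Q, g p = u • p)
    (m : Equiv.Perm Q) (hm : m ∈ Subgroup.closure (genSet Q)) : ∀ p : Q, ∃ u : A Q, m p = u • p := by
  refine Subgroup.closure_induction (p := fun m _ => ∀ p : Q, ∃ u : A Q, m p = u • p)
    ?_ ?_ ?_ ?_ hm
  · exact h
  · intro p; exact ⟨1, by simp⟩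
  · intro a b ha _ iha ihb p
    obtain ⟨u, hu⟩ := ihb p
    obtain ⟨v, hv⟩ := iha p
    obtain ⟨z, hz⟩ := u.2.mlt a (genSet_sub_Mlt ha) p
    refine ⟨ofZ z * (u * v), ?_⟩
    simp only [Equiv.Perm.mul_apply]
    rw [hu, A.smul_def, hz, hv]
    show z • u • v • p = _
    rw [smul_smul, zA_smul]
  · intro a _ iha p
    obtain ⟨u, hu⟩ := iha (a⁻¹ p)
    have h1 : a (a⁻¹ p) = p := by simp
    rw [h1] at hu
    refine ⟨u⁻¹, ?_⟩
    nth_rewrite 2 [hu]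
    rw [inv_smul_smul]

theorem inn_closure (φ : Inn Q) : φ.1 ∈ Subgroup.closure (genSet Q) := by
  obtain ⟨x, h, hh, e⟩ := aux_mlt_fact φ.1 φ.2.1
  have hx : x = 1 := by
    have := φ.2.2
    rw [e] at this
    simpa [genSet_fix h hh] using this
  rw [e, hx]; simpa using hh

theorem cl3_of_gen (h : ∀ g ∈ genSet Q, ∀ p : Q, IsZ2 (g p / p)) : Cl3 Q := by
  refine ⟨fun φ p => ?_⟩
  have hg : ∀ g ∈ genSet Q, ∀ p : Q, ∃ u : A Q, g p = u • p := by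
    intro g hg p
    have hm : g ∈ Inn Q := ⟨genSet_sub_Mlt (Subgroup.subset_closure hg),
      genSet_fix g (Subgroup.subset_closure hg)⟩
    exact ⟨⟨g p / p, h g hg p, disp_D1 ⟨g, hm⟩ p⟩, (Lp.rd_mul _ _).symm⟩
  obtain ⟨u, hu⟩ := disp_closure hg φ.1 (inn_closure φ) p
  rw [rd_eq (a := p) (c := u.1) hu.symm]
  exact u.2

theorem step_cl3 (E : CExt Q P) (H : PP P) : Cl3 Q := by
  have hinv : ∀ {u : A Q}, IsCen u.1 → IsCen (u⁻¹).1 := fun {u} h => IsCen.inv h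
  have ht : ∀ v z : Q, IsZ2 (tauD E v z).1 := fun v z => by
    apply z2_of_G1
    · intro x; exact t_cen H x v z
    · intro x y; rw [gL_tauD H]; exact W_cen H _ _ _ _
    · intro x y; rw [gR_tauD H]; exact hinv (W_cen H _ _ _ _)
  have hl : ∀ x y z : Q, IsZ2 (lamD E x y z).1 := fun a b z => by
    apply z2_of_G1
    · intro x; exact W_cen H x a b z
    · intro x y; exact F_cen H x y a b z
    · intro x y; rw [gR_lamD H]; exact hinv (F_cen H _ _ _ _ _)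
  have hr : ∀ x y z : Q, IsZ2 (rhoD E y z x).1 := fun a b z => by
    apply E.z2_of_cen
    have h1 := congrArg A.val (rhoD_lamD H (E := E) a b z)
    rw [toAh_val] at h1
    rw [h1, toAh_val]
    have h2 := E.cen_of_z2 (hl a b z)
    show IsCen (E.π ((lamD E a b z).1 \ 1))
    rw [E.ld, E.one]
    exact h2.inv
  apply cl3_of_gen
  rintro g ⟨x, y, rfl | rfl | rfl⟩ p
  · exact ht x p
  · exact hl x y p
  · exact hr p x y

theorem G_eq_G1 (φ : Inn Q) (u : A Q) (w : Dt E) (h : u.1 = w.1) : ofZ (G φ u) = G1 φ w := by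
  symm
  apply G1_uniq
  rw [← h, ofZ_smul]
  exact G_spec φ u

theorem oinj {z w : Zc Q} (h : (ofZ z : A Q) = ofZ w) : z = w := Zc.ext (congrArg A.val h)

theorem step_pp (E : CExt Q P) (H : PP P) [Cl3 Q] : PP Q := by
  have eW : ∀ v x y z : Q, ofZ (WP v x y z) = W E v x y z := fun v x y z =>
    G_eq_G1 (T v) (lam x y z) (lamD E x y z) rfl
  have eF : ∀ a b c d e : Q, ofZ (FP a b c d e) = F E a b c d e := fun a b c d e =>
    G_eq_G1 (Li a b) (lam c d e) (lamD E c d e) rfl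
  have et : ∀ x y z : Q, ofZ (tP x y z) = t E x y z := fun x y z =>
    G_eq_G1 (T x) (tau y z) (tauD E y z) rfl
  have hW := W_Alt4 H (E := E)
  have hF := F_Alt5 H (E := E)
  obtain ⟨t1, t2, t3, t4⟩ := t_alg H (E := E)
  constructor
  · intro x y z
    obtain ⟨c, hc⟩ := exists_z (muD_lamD H (E := E) x y z)
    exact ⟨c, A.ext (congrArg Dt.val hc)⟩
  · intro x y z
    obtain ⟨c, hc⟩ := exists_z (rhoD_lamD H (E := E) x y z)
    exact ⟨c, A.ext (congrArg Dt.val hc)⟩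
  · constructor
    · intro a b c d; apply oinj; rw [map_inv, eW, eW, hW.s1]
    · intro a b c d; apply oinj; rw [map_inv, eW, eW, hW.s2]
    · intro a b c d; apply oinj; rw [map_inv, eW, eW, hW.s3]
    · intro a c d; apply oinj; rw [eW, hW.alt12, map_one]
    · intro a a' b c d; apply oinj; rw [map_mul, eW, eW, eW, hW.add1]
  · intro v x y z; apply oinj; rw [map_pow, eW, t1, map_one]
  · constructor
    · intro a b c d e; apply oinj; rw [map_inv, eF, eF, hF.s1]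
    · intro a b c d e; apply oinj; rw [map_inv, eF, eF, hF.s2]
    · intro a b c d e; apply oinj; rw [map_inv, eF, eF, hF.s3]
    · intro a b c d e; apply oinj; rw [map_inv, eF, eF, hF.s4]
    · intro a c d e; apply oinj; rw [eF, hF.alt12, map_one]
    · intro a a' b c d e; apply oinj; rw [map_mul, eF, eF, eF, hF.add1]
    · intro a b c d e; apply oinj; rw [map_pow, eF, hF.three, map_one]
  · intro x y z; apply oinj; rw [et, et, t3]
  · intro x y z; apply oinj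
    rw [et, et, t_anti H, inv_eq_iff_mul_eq_one, ← pow_two, t4]
  · intro x y z; apply oinj; rw [map_pow, et, t4, map_one]
  · intro x x' y z; apply oinj
    rw [map_mul, map_mul, map_pow, et, et, et, eW]
    have h := t_addQ H (E := E) x x' y z
    rw [t2, map_one, mul_one] at h
    have w1 : W E y z x x' = W E x x' y z := by
      rw [hW.s2 y x z x', hW.s1 x y z x', hW.s3 x y x' z, hW.s2 x x' y z]; simp
    rw [w1] at h
    rw [← h, mul_assoc, ← pow_add, t1, mul_one]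

end fin

/-! ### the quotient by the center -/

section quot
variable (Q : Type) [Lp Q]

/-- congruence modulo the center -/
def zrel : Setoid Q where
  r x y := ∃ z : Zc Q, x = z • y
  iseqv := ⟨fun x => ⟨1, by simp⟩, fun {x y} ⟨z, h⟩ => ⟨z⁻¹, zsmul_flip h⟩,
    fun {x y w} ⟨z, h⟩ ⟨z', h'⟩ => ⟨z * z', by rw [h, h', smul_smul]⟩⟩

/-- quotient by the center -/
def QZ : Type := Quotient (zrel Q)

variable {Q}

def QZ.mk (x : Q) : QZ Q := Quotient.mk (zrel Q) x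

theorem QZ.ind {p : QZ Q → Prop} (h : ∀ x : Q, p (QZ.mk x)) (y : QZ Q) : p y :=
  Quotient.ind h y

theorem QZ.sound {x y : Q} (z : Zc Q) (h : x = z • y) : QZ.mk x = QZ.mk y :=
  Quotient.sound (s := zrel Q) ⟨z, h⟩

instance : Mul (QZ Q) := ⟨Quotient.map₂ (fun x y => x * y) (by
  rintro a b ⟨z, rfl⟩ c d ⟨w, rfl⟩
  exact ⟨z * w, by simp [smul_smul, mul_comm]⟩)⟩
instance : One (QZ Q) := ⟨QZ.mk 1⟩
instance : SDiff (QZ Q) := ⟨Quotient.map₂ (fun x y => x \ y) (by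
  rintro a b ⟨z, rfl⟩ c d ⟨w, rfl⟩
  exact ⟨w * z⁻¹, by simp [smul_smul]⟩)⟩
instance : Div (QZ Q) := ⟨Quotient.map₂ (fun x y => x / y) (by
  rintro a b ⟨z, rfl⟩ c d ⟨w, rfl⟩
  exact ⟨w⁻¹ * z, by simp [smul_smul]⟩)⟩

theorem QZ.mk_mul (x y : Q) : QZ.mk (x * y) = QZ.mk x * QZ.mk y := rfl
theorem QZ.mk_one : (QZ.mk (1 : Q)) = 1 := rfl
theorem QZ.mk_ld (x y : Q) : QZ.mk (x \ y) = QZ.mk x \ QZ.mk y := rfl
theorem QZ.mk_rd (x y : Q) : QZ.mk (x / y) = QZ.mk x / QZ.mk y := rfl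

instance : Lp (QZ Q) where
  omul := QZ.ind fun x => by rw [← QZ.mk_one, ← QZ.mk_mul, Lp.omul]
  mulo := QZ.ind fun x => by rw [← QZ.mk_one, ← QZ.mk_mul, Lp.mulo]
  mul_ld := QZ.ind fun x => QZ.ind fun y => by rw [← QZ.mk_ld, ← QZ.mk_mul, Lp.mul_ld]
  ld_mul := QZ.ind fun x => QZ.ind fun y => by rw [← QZ.mk_mul, ← QZ.mk_ld, Lp.ld_mul]
  rd_mul := QZ.ind fun x => QZ.ind fun y => by rw [← QZ.mk_rd, ← QZ.mk_mul, Lp.rd_mul]
  mul_rd := QZ.ind fun x => QZ.ind fun y => by rw [← QZ.mk_mul, ← QZ.mk_rd, Lp.mul_rd]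

variable (Q) in
def quotExt : CExt Q (QZ Q) where
  π := QZ.mk
  mul _ _ := rfl
  surj := QZ.ind fun x => ⟨x, rfl⟩
  ker _ _ h := Quotient.exact (s := zrel Q) h
  kz z _ := QZ.sound z rfl

theorem CExt.lift_ex {P : Type} [Lp P] (E : CExt Q P) (n : Equiv.Perm P) (hn : n ∈ Mlt P) :
    ∃ m ∈ Mlt Q, ∀ x, E.π (m x) = n (E.π x) := by
  refine Subgroup.closure_induction (p := fun n _ => ∃ m ∈ Mlt Q, ∀ x, E.π (m x) = n (E.π x))
    ?_ ?_ ?_ ?_ hn
  · rintro g ⟨y, rfl | rfl⟩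
    · obtain ⟨a, rfl⟩ := E.surj y
      exact ⟨L a, L_mem _, fun x => by simp [E.mul]⟩
    · obtain ⟨a, rfl⟩ := E.surj y
      exact ⟨R a, R_mem _, fun x => by simp [E.mul]⟩
  · exact ⟨1, (Mlt Q).one_mem, fun x => rfl⟩
  · rintro a b _ _ ⟨n, hn, h1⟩ ⟨k, hk, h2⟩
    exact ⟨n * k, (Mlt Q).mul_mem hn hk, fun x => by simp [h1, h2]⟩
  · rintro a _ ⟨n, hn, h1⟩
    refine ⟨n⁻¹, (Mlt Q).inv_mem hn, fun x => ?_⟩
    rw [eq_comm, Equiv.Perm.inv_eq_iff_eq, ← h1]; simp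

theorem CExt.lift_inn {P : Type} [Lp P] (E : CExt Q P) (n : Equiv.Perm P) (hn : n ∈ Mlt P)
    (h1 : n 1 = 1) : ∃ φ : Inn Q, ∀ x, E.π (φ.1 x) = n (E.π x) := by
  obtain ⟨m, hm, h⟩ := E.lift_ex n hn
  have h2 : E.π (m 1) = E.π 1 := by rw [h, E.one, h1]
  obtain ⟨z, hz⟩ := E.ker _ _ h2
  refine ⟨⟨(L z.1)⁻¹ * m, (Mlt Q).mul_mem ((Mlt Q).inv_mem (L_mem _)) hm, ?_⟩, fun x => ?_⟩
  · simp only [Equiv.Perm.mul_apply, hz, L_inv_apply, Zc.smul_one']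
    simp
  · show E.π (z.1 \ m x) = _
    rw [← h]
    have : m x = z • (z.1 \ m x) := by rw [Zc.smul_def]; simp
    nth_rewrite 2 [this]
    rw [E.kz]

theorem aim_quot [Aim Q] {P : Type} [Lp P] (E : CExt Q P) : Aim P := by
  refine ⟨fun m hm n hn h1 h2 => ?_⟩
  obtain ⟨φ, hφ⟩ := E.lift_inn m hm h1
  obtain ⟨ψ, hψ⟩ := E.lift_inn n hn h2
  ext p
  obtain ⟨x, rfl⟩ := E.surj p
  have hc : φ.1 (ψ.1 x) = ψ.1 (φ.1 x) :=
    congrArg (fun m : Equiv.Perm Q => m x) (Aim.comm _ φ.2.1 _ ψ.2.1 φ.2.2 ψ.2.2)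
  simp only [Equiv.Perm.mul_apply]
  rw [← hψ, ← hφ, hc, hψ, hφ]

/-- the upper central series -/
def Zs (Q : Type) [Lp Q] : ℕ → Set Q
  | 0 => {1}
  | k + 1 => {a | ∀ x y : Q,
      (∃ n ∈ Zs Q k, x * a = (a * x) * n) ∧
      (∃ n ∈ Zs Q k, a * (x * y) = ((a * x) * y) * n) ∧
      (∃ n ∈ Zs Q k, x * (a * y) = ((x * a) * y) * n) ∧
      (∃ n ∈ Zs Q k, x * (y * a) = ((x * y) * a) * n)}

theorem Zs_one (a : Q) : a ∈ Zs Q 1 ↔ IsCen a := by
  constructor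
  · intro h
    have h' : ∀ x y : Q, x * a = a * x ∧ a * (x * y) = (a * x) * y ∧ x * (a * y) = (x * a) * y := by
      intro x y
      obtain ⟨⟨n, hn, h1⟩, ⟨m, hm, h2⟩, ⟨k, hk, h3⟩, _⟩ := h x y
      rw [show n = 1 from hn] at h1
      rw [show m = 1 from hm] at h2
      rw [show k = 1 from hk] at h3
      simp only [Lp.mulo] at h1 h2 h3
      exact ⟨h1, h2, h3⟩
    refine ⟨fun x y => ?_, fun x y => (h' x y).2.1.symm⟩
    rw [(h' x y).2.2, (h' x y).1, (h' x y).2.1]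
  · intro h x y
    refine ⟨⟨1, rfl, ?_⟩, ⟨1, rfl, ?_⟩, ⟨1, rfl, ?_⟩, ⟨1, rfl, ?_⟩⟩
    · rw [Lp.mulo, h.comm]
    · rw [Lp.mulo, h.2]
    · rw [Lp.mulo, h.1, h.comm, h.2]
    · rw [Lp.mulo, h.comm y, h.1, h.comm (x * y)]

theorem Zs_succ {P : Type} [Lp P] (E : CExt Q P) : ∀ (k : ℕ) (a : Q),
    a ∈ Zs Q (k + 1) ↔ E.π a ∈ Zs P k
  | 0, a => by
    rw [Zs_one]
    show _ ↔ E.π a = 1
    constructor
    · intro h
      have := E.kz ⟨a, h⟩ 1
      rw [Zc.smul_one', E.one] at this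
      exact this
    · intro h
      obtain ⟨z, hz⟩ := E.ker a 1 (by rw [h, E.one])
      rw [hz, Zc.smul_one']; exact z.2
  | k + 1, a => by
    have ih := Zs_succ E k
    constructor
    · intro h x y
      obtain ⟨x, rfl⟩ := E.surj x
      obtain ⟨y, rfl⟩ := E.surj y
      obtain ⟨⟨n1, m1, h1⟩, ⟨n2, m2, h2⟩, ⟨n3, m3, h3⟩, ⟨n4, m4, h4⟩⟩ := h x y
      refine ⟨⟨E.π n1, (ih _).mp m1, ?_⟩, ⟨E.π n2, (ih _).mp m2, ?_⟩, ⟨E.π n3, (ih _).mp m3, ?_⟩,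
        ⟨E.π n4, (ih _).mp m4, ?_⟩⟩
      · rw [← E.mul, h1]; simp only [E.mul]
      · rw [← E.mul x y, ← E.mul, h2]; simp only [E.mul]
      · rw [← E.mul a y, ← E.mul, h3]; simp only [E.mul]
      · rw [← E.mul y a, ← E.mul, h4]; simp only [E.mul]
    · intro h x y
      obtain ⟨⟨n1, m1, h1⟩, ⟨n2, m2, h2⟩, ⟨n3, m3, h3⟩, ⟨n4, m4, h4⟩⟩ := h (E.π x) (E.π y)
      refine ⟨⟨(a * x) \ (x * a), (ih _).mpr ?_, by simp⟩,
        ⟨((a * x) * y) \ (a * (x * y)), (ih _).mpr ?_, by simp⟩,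
        ⟨((x * a) * y) \ (x * (a * y)), (ih _).mpr ?_, by simp⟩,
        ⟨((x * y) * a) \ (x * (y * a)), (ih _).mpr ?_, by simp⟩⟩
      · rw [E.ld]; simp only [E.mul]; rw [h1, Lp.ld_mul]; exact m1
      · rw [E.ld]; simp only [E.mul]; rw [h2, Lp.ld_mul]; exact m2
      · rw [E.ld]; simp only [E.mul]; rw [h3, Lp.ld_mul]; exact m3
      · rw [E.ld]; simp only [E.mul]; rw [h4, Lp.ld_mul]; exact m4

end quot

section final

theorem triv_pp (Q : Type) [Lp Q] [Aim Q] (h : ∀ x : Q, x = 1) : ∃ _ : Cl3 Q, PP Q := by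
  have hs : Subsingleton Q := ⟨fun a b => by rw [h a, h b]⟩
  have hz : Subsingleton (Zc Q) := ⟨fun a b => Zc.ext (Subsingleton.elim _ _)⟩
  have ha : Subsingleton (A Q) := ⟨fun a b => A.ext (Subsingleton.elim _ _)⟩
  have hc : Cl3 Q := ⟨fun φ p => by
    rw [Subsingleton.elim (φ.1 p / p) 1]; exact IsZ2.one⟩
  refine ⟨hc, ?_⟩
  refine ⟨?_, ?_, ?_, ?_, ?_, ?_, ?_, ?_, ?_⟩
  · intro x y z; exact ⟨1, Subsingleton.elim _ _⟩
  · intro x y z; exact ⟨1, Subsingleton.elim _ _⟩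
  · constructor <;> intros <;> exact Subsingleton.elim _ _
  · intros; exact Subsingleton.elim _ _
  · constructor <;> intros <;> exact Subsingleton.elim _ _
  all_goals intros; exact Subsingleton.elim _ _

theorem main_ind : ∀ (n : ℕ) (Q : Type) [Lp Q] [Aim Q], Zs Q n = Set.univ → ∃ _ : Cl3 Q, PP Q
  | 0, Q, _, _, h => triv_pp Q fun x => by
      have : x ∈ Zs Q 0 := by rw [h]; trivial
      exact this
  | n + 1, Q, _, _, h => by
      have hA : Aim (QZ Q) := aim_quot (quotExt Q)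
      have h1 : Zs (QZ Q) n = Set.univ := by
        ext y
        refine ⟨fun _ => trivial, fun _ => ?_⟩
        obtain ⟨x, rfl⟩ := (quotExt Q).surj y
        rw [← Zs_succ (quotExt Q)]
        rw [h]; trivial
      obtain ⟨hc, hp⟩ := main_ind n (QZ Q) h1
      have hq : Cl3 Q := step_cl3 (quotExt Q) hp
      exact ⟨hq, step_pp (quotExt Q) hp⟩

variable {Q : Type} [Lp Q]

theorem Zs_two_of_Z2 {u : Q} (h : IsZ2 u) : u ∈ Zs Q 2 := by
  intro x y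
  have hz : ∀ z : Zc Q, z.1 ∈ Zs Q 1 := fun z => (Zs_one z.1).mpr z.2
  obtain ⟨z1, h1⟩ := h.T' x
  obtain ⟨z2, h2⟩ := h.R' x y
  obtain ⟨z3, h3⟩ := h.X' x y
  obtain ⟨z4, h4⟩ := h.L' x y
  refine ⟨⟨_, hz z1⁻¹, ?_⟩, ⟨_, hz z2, ?_⟩, ⟨_, hz z3, ?_⟩, ⟨_, hz z4, ?_⟩⟩
  · rw [mul_z_eq]; exact zsmul_flip h1
  · rw [mul_z_eq]; exact h2
  · rw [mul_z_eq]; exact h3
  · rw [mul_z_eq]; exact h4

theorem A_right [Aim Q] (v : A Q) (x : Q) : ∃ n ∈ Zs Q 2, v • x = x * n := by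
  refine ⟨(ofZ (G (T x) v)⁻¹ * v).1, Zs_two_of_Z2 (ofZ (G (T x) v)⁻¹ * v).2, ?_⟩
  show _ = x * ((G (T x) v)⁻¹ • v.1)
  rw [mulz, mulAval, inv_smul_smul]

theorem Zs_three [Aim Q] [Cl3 Q] : Zs Q 3 = Set.univ := by
  ext a
  refine ⟨fun _ => trivial, fun _ x y => ⟨?_, ?_, ?_, ?_⟩⟩
  · have h : x * a = (ofZ (G (Ri a x) (dA (T x) a)) * dA (T x) a) • (a * x) := by
      rw [← T_spec, dA_spec, Amul, zA_smul]
    rw [h]; exact A_right _ _
  · rw [aA_spec]; exact A_right _ _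
  · rw [aA_spec]; exact A_right _ _
  · rw [aA_spec]; exact A_right _ _

/-- nilpotent loops with abelian inner mapping group have class at most three -/
theorem class_le_three [Aim Q] (n : ℕ) (h : Zs Q n = Set.univ) : Zs Q 3 = Set.univ := by
  obtain ⟨hc, _⟩ := main_ind n Q h
  exact Zs_three

end final

end Pool.Agent.helper8.AimL
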