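import Pool.Agent.helper8.Aim.Core

set_option autoImplicit false
set_option linter.unusedSectionVars false

namespace Pool.Agent.helper8.AimL

section z2
variable {Q : Type} [Lp Q]

theorem zsmul_flip {z : Zc Q} {x y : Q} (h : x = z • y) : y = z⁻¹ • x := by
  rw [h, inv_smul_smul]

theorem IsZ2.T' {u : Q} (h : IsZ2 u) (x : Q) : ∃ z : Zc Q, u * x = z • (x * u) := by
  obtain ⟨z, hz⟩ := h (T x)
  have := T_spec x u
  rw [hz, zmul] at this
  exact ⟨z⁻¹, zsmul_flip this.symm⟩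

theorem IsZ2.R' {u : Q} (h : IsZ2 u) (x y : Q) : ∃ z : Zc Q, u * (x * y) = z • ((u * x) * y) := by
  obtain ⟨z, hz⟩ := h (Ri x y)
  have := Ri_spec x y u
  rw [hz, zmul] at this
  exact ⟨z⁻¹, zsmul_flip this.symm⟩

theorem IsZ2.L' {u : Q} (h : IsZ2 u) (x y : Q) : ∃ z : Zc Q, x * (y * u) = z • ((x * y) * u) := by
  obtain ⟨z, hz⟩ := h (Li x y)
  have := Li_spec x y u
  rw [hz, mulz] at this
  exact ⟨z, this.symm⟩

theorem IsZ2.X' {u : Q} (h : IsZ2 u) (x y : Q) : ∃ z : Zc Q, x * (u * y) = z • ((x * u) * y) := by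
  obtain ⟨z, hz⟩ := h (Xi x y)
  have := Xi_spec x y u
  rw [hz, mulz, zmul] at this
  exact ⟨z, this.symm⟩

theorem IsZ2.KT {u : Q} (h : IsZ2 u) : InK (T u).1 := by
  intro x
  obtain ⟨z, hz⟩ := h.T' x
  refine ⟨z, ?_⟩
  rw [T_apply, hz]; simp

theorem IsZ2.KL1 {u : Q} (h : IsZ2 u) (x : Q) : InK (Li u x).1 := by
  intro y
  obtain ⟨z, hz⟩ := h.R' x y
  refine ⟨z, ?_⟩
  rw [Li_apply, hz]; simp

theorem IsZ2.KL2 {u : Q} (h : IsZ2 u) (x : Q) : InK (Li x u).1 := by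
  intro y
  obtain ⟨z, hz⟩ := h.X' x y
  refine ⟨z, ?_⟩
  rw [Li_apply, hz]; simp

theorem IsZ2.KR1 {u : Q} (h : IsZ2 u) (x : Q) : InK (Ri u x).1 := by
  intro y
  obtain ⟨z, hz⟩ := h.X' y x
  refine ⟨z⁻¹, ?_⟩
  rw [Ri_apply, zsmul_flip hz]; simp

theorem IsZ2.KR2 {u : Q} (h : IsZ2 u) (x : Q) : InK (Ri x u).1 := by
  intro y
  obtain ⟨z, hz⟩ := h.L' y x
  refine ⟨z⁻¹, ?_⟩
  rw [Ri_apply, zsmul_flip hz]; simp

theorem IsZ2.KX1 {u : Q} (h : IsZ2 u) (x : Q) : InK (Xi u x).1 := by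
  intro y
  obtain ⟨z, hz⟩ := h.R' y x
  refine ⟨z, ?_⟩
  rw [Xi_apply, hz]; simp

theorem IsZ2.KX2 {u : Q} (h : IsZ2 u) (x : Q) : InK (Xi x u).1 := by
  intro y
  obtain ⟨z, hz⟩ := h.L' x y
  refine ⟨z, ?_⟩
  rw [Xi_apply, hz]; simp

theorem IsZ2.mlt {u : Q} (h : IsZ2 u) (m : Equiv.Perm Q) (hm : m ∈ Mlt Q) :
    ∀ x, ∃ z : Zc Q, m (u * x) = z • (u * m x) := by
  refine Subgroup.closure_induction (p := fun m _ => ∀ x, ∃ z : Zc Q, m (u * x) = z • (u * m x))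
    ?_ ?_ ?_ ?_ hm
  · rintro g ⟨y, rfl | rfl⟩ x
    · obtain ⟨z1, h1⟩ := h.X' y x
      obtain ⟨z2, h2⟩ := h.T' y
      obtain ⟨z3, h3⟩ := h.R' y x
      refine ⟨z1 * z2⁻¹ * z3⁻¹, ?_⟩
      have h2' := zsmul_flip h2
      have h3' := zsmul_flip h3
      simp only [L_apply]
      rw [h1, h2', zmul, h3']
      simp only [smul_smul, mul_assoc]
    · obtain ⟨z3, h3⟩ := h.R' x y
      refine ⟨z3⁻¹, ?_⟩
      have h3' := zsmul_flip h3
      simp only [R_apply]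
      rw [h3']
  · intro x; exact ⟨1, by simp⟩
  · intro a b _ _ ha hb x
    obtain ⟨z1, h1⟩ := hb x
    obtain ⟨z2, h2⟩ := ha (b x)
    have ha' : a ∈ Mlt Q := by assumption
    refine ⟨z1 * z2, ?_⟩
    simp only [Equiv.Perm.mul_apply]
    rw [h1, mlt_z a ha', h2, smul_smul]
  · intro a ha ih x
    have ha' : a ∈ Mlt Q := ha
    obtain ⟨z1, h1⟩ := ih (a⁻¹ x)
    refine ⟨z1⁻¹, ?_⟩
    rw [Equiv.Perm.inv_eq_iff_eq, mlt_z a ha', h1]
    simp

theorem IsZ2.one : IsZ2 (1 : Q) := fun φ => ⟨1, by simp⟩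

theorem IsZ2.map {u : Q} (h : IsZ2 u) (φ : Inn Q) : IsZ2 (φ.1 u) := by
  intro ψ
  obtain ⟨z1, h1⟩ := h φ
  obtain ⟨z2, h2⟩ := h ψ
  refine ⟨z2, ?_⟩
  rw [h1]; simp only [inn_z, h2]
  rw [smul_comm]

end z2

section aim
variable {Q : Type} [Lp Q] [Aim Q]

theorem uw_comm {u w : Q} (hu : IsZ2 u) (hw : IsD1 w) : u * w = w * u := by
  have := K_fix hu.KT hw
  have h := T_spec u w
  rw [this] at h; exact h.symm

theorem uxw {u w : Q} (hu : IsZ2 u) (hw : IsD1 w) (x : Q) : (u * x) * w = u * (x * w) := by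
  rw [← Li_spec, K_fix (hu.KL1 x) hw]

theorem xuw {u w : Q} (hu : IsZ2 u) (hw : IsD1 w) (x : Q) : (x * u) * w = x * (u * w) := by
  rw [← Li_spec, K_fix (hu.KL2 x) hw]

theorem wux {u w : Q} (hu : IsZ2 u) (hw : IsD1 w) (x : Q) : (w * u) * x = w * (u * x) := by
  rw [← Ri_spec, K_fix (hu.KR1 x) hw]

theorem wxu {u w : Q} (hu : IsZ2 u) (hw : IsD1 w) (x : Q) : (w * x) * u = w * (x * u) := by
  rw [← Ri_spec, K_fix (hu.KR2 x) hw]

theorem uwx {u w : Q} (hu : IsZ2 u) (hw : IsD1 w) (x : Q) : (u * w) * x = u * (w * x) := by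
  rw [← Xi_spec, K_fix (hu.KX1 x) hw]

theorem xwu {u w : Q} (hu : IsZ2 u) (hw : IsD1 w) (x : Q) : (x * w) * u = x * (w * u) := by
  rw [← Xi_spec, K_fix (hu.KX2 x) hw]

/-- if `φ` is multiplicative at `w` modulo the center then it is multiplicative at `w` on `D1` -/
theorem lemmaM {φ : Inn Q} {w v : Q} (h : ∀ x, ∃ z : Zc Q, φ.1 (w * x) = z • (φ.1 w * φ.1 x))
    (hv : IsD1 v) : φ.1 (w * v) = φ.1 w * φ.1 v := by
  have hk : InK (φ⁻¹ * tw φ w).1 := by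
    intro x
    obtain ⟨z, hz⟩ := h x
    refine ⟨z, ?_⟩
    show φ.1⁻¹ ((tw φ w).1 x) = z • x
    rw [Equiv.Perm.inv_eq_iff_eq, inn_z]
    apply lcan (a := φ.1 w)
    rw [← tw_spec, hz, mulz]
  have h1 := K_fix hk hv
  have h2 : (tw φ w).1 v = φ.1 v := by
    have : φ.1⁻¹ ((tw φ w).1 v) = v := h1
    rwa [Equiv.Perm.inv_eq_iff_eq] at this
  rw [tw_spec, h2]

theorem IsZ2.map_mul {u w : Q} (hu : IsZ2 u) (hw : IsD1 w) (φ : Inn Q) :
    φ.1 (u * w) = φ.1 u * φ.1 w := by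
  refine lemmaM (fun x => ?_) hw
  obtain ⟨z, hz⟩ := hu.mlt φ.1 φ.2.1 x
  obtain ⟨z', hz'⟩ := hu φ
  refine ⟨z * z'⁻¹, ?_⟩
  rw [hz, hz', zmul, smul_smul]; simp

variable (Q) in
/-- the abelian group `Z_2 ∩ D_1` -/
@[ext] structure A : Type where
  val : Q
  z2 : IsZ2 val
  d1 : IsD1 val

instance : Mul (A Q) := ⟨fun u v => ⟨u.1 * v.1, fun φ => by
    obtain ⟨z, hz⟩ := u.z2 φ
    obtain ⟨z', hz'⟩ := v.z2 φ
    refine ⟨z * z', ?_⟩
    rw [u.z2.map_mul v.d1, hz, hz']; simp [smul_smul, mul_comm], u.d1.mul v.d1⟩⟩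
instance : One (A Q) := ⟨⟨1, IsZ2.one, IsD1.one⟩⟩

theorem A.inv_aux (u : A Q) : IsZ2 (u.1 \ 1) := fun φ => by
  have hd : IsD1 (u.1 \ 1) := u.d1.ld IsD1.one
  obtain ⟨z, hz⟩ := u.z2 φ
  refine ⟨z⁻¹, ?_⟩
  have := u.z2.map_mul hd φ
  rw [Lp.mul_ld, Inn.map_one, hz, zmul] at this
  have h2 := zsmul_flip this
  apply lcan (a := u.1)
  rw [mulz, Lp.mul_ld]; exact h2

instance : Inv (A Q) := ⟨fun u => ⟨u.1 \ 1, A.inv_aux u, u.d1.ld IsD1.one⟩⟩

@[simp] theorem A.val_mul (u v : A Q) : (u * v).1 = u.1 * v.1 := rfl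
@[simp] theorem A.val_one : (1 : A Q).1 = 1 := rfl
theorem A.val_inv (u : A Q) : (u⁻¹).1 = u.1 \ 1 := rfl

instance instCommA : CommGroup (A Q) where
  mul_assoc u v w := A.ext (uwx u.z2 v.d1 w.1)
  one_mul u := A.ext (Lp.omul u.1)
  mul_one u := A.ext (Lp.mulo u.1)
  inv_mul_cancel u := A.ext (by
    show (u.1 \ 1) * u.1 = 1
    rw [← uw_comm u.z2 (u.d1.ld IsD1.one)]
    simp)
  mul_comm u v := A.ext (uw_comm u.z2 v.d1)

instance : MulAction (A Q) Q where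
  smul u x := u.1 * x
  one_smul x := Lp.omul x
  mul_smul u v x := uwx u.z2 v.d1 x

theorem A.smul_def (u : A Q) (x : Q) : u • x = u.1 * x := rfl
@[simp] theorem A.smul_one' (u : A Q) : u • (1 : Q) = u.1 := Lp.mulo u.1

theorem A_cancel {u v : A Q} {x : Q} (h : u • x = v • x) : u = v := A.ext (rcan h)

/-- central elements as elements of `A` -/
def ofZ : Zc Q →* A Q where
  toFun z := ⟨z.1, fun φ => ⟨1, by simp⟩, fun k hk _ => (Lz_comm z hk).symm⟩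
  map_one' := rfl
  map_mul' _ _ := rfl

theorem ofZ_smul (z : Zc Q) (x : Q) : (ofZ z : A Q) • x = z • x := rfl
@[simp] theorem ofZ_val (z : Zc Q) : (ofZ z : A Q).1 = z.1 := rfl

instance : SMulCommClass (Zc Q) (A Q) Q := ⟨fun z u x => (mulz z u.1 x).symm⟩
instance : SMulCommClass (A Q) (Zc Q) Q := ⟨fun u z x => (mulz z u.1 x)⟩

/-- `φ u = G φ u • u` -/
noncomputable def G (φ : Inn Q) (u : A Q) : Zc Q := (u.z2 φ).choose

theorem G_spec (φ : Inn Q) (u : A Q) : φ.1 u.1 = G φ u • u.1 := (u.z2 φ).choose_spec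

theorem G_uniq {φ : Inn Q} {u : A Q} {z : Zc Q} (h : φ.1 u.1 = z • u.1) : G φ u = z :=
  z_cancel (x := u.1) (by rw [← G_spec, h])

theorem G_mul_right (φ : Inn Q) (u v : A Q) : G φ (u * v) = G φ u * G φ v := by
  apply G_uniq
  rw [A.val_mul, u.z2.map_mul v.d1, G_spec, G_spec]
  simp [smul_smul, mul_comm]

theorem G_mul_left (φ ψ : Inn Q) (u : A Q) : G (φ * ψ) u = G φ u * G ψ u := by
  apply G_uniq
  show φ.1 (ψ.1 u.1) = _
  rw [G_spec, inn_z, G_spec, smul_smul, mul_comm]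

@[simp] theorem G_one_right (φ : Inn Q) : G φ (1 : A Q) = 1 := G_uniq (by simp)
@[simp] theorem G_one_left (u : A Q) : G (1 : Inn Q) u = 1 := G_uniq (by simp)

/-- bimultiplicative form of `G` -/
noncomputable def Gh (φ : Inn Q) : A Q →* Zc Q where
  toFun := G φ
  map_one' := G_one_right φ
  map_mul' := G_mul_right φ

theorem Gh_apply (φ : Inn Q) (u : A Q) : Gh φ u = G φ u := rfl

@[simp] theorem G_inv_right (φ : Inn Q) (u : A Q) : G φ u⁻¹ = (G φ u)⁻¹ := map_inv (Gh φ) u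
theorem G_inv_left (φ : Inn Q) (u : A Q) : G φ⁻¹ u = (G φ u)⁻¹ := by
  rw [eq_inv_iff_mul_eq_one, ← G_mul_left]; simp

@[simp] theorem G_ofZ (φ : Inn Q) (z : Zc Q) : G φ (ofZ z) = 1 := G_uniq (by simp)

theorem G_zmul (φ : Inn Q) (z : Zc Q) (u : A Q) : G φ (ofZ z * u) = G φ u := by
  rw [G_mul_right]; simp

/-! ### moving elements of `A` through products -/

theorem Amul (u : A Q) (x y : Q) : (u • x) * y = G (Ri x y) u • u • (x * y) := by
  have := Ri_spec x y u.1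
  rw [G_spec, zmul] at this
  exact this.symm

theorem mulAval (u : A Q) (x : Q) : x * u.1 = G (T x) u • u • x := by
  have := T_spec x u.1
  rw [G_spec, zmul] at this
  exact this.symm

theorem mulA (u : A Q) (x y : Q) :
    x * (u • y) = (G (T x) u * G (Xi x y) u * G (Ri x y) u) • u • (x * y) := by
  have := Xi_spec x y u.1
  rw [G_spec, mulz, zmul] at this
  rw [A.smul_def, ← this, mulAval, zmul, Amul]
  simp only [smul_smul]
  congr 1
  rw [← mul_assoc, mul_comm (G (Xi x y) u)]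

theorem mul_mulA (u : A Q) (x y : Q) : x * (y * u.1) = G (Li x y) u • ((x * y) * u.1) := by
  have := Li_spec x y u.1
  rw [G_spec, mulz] at this
  exact this.symm

/-- multiplicativity defect -/
theorem md_ex (φ : Inn Q) (u : A Q) (x : Q) :
    ∃ z : Zc Q, φ.1 (u • x) = z • G φ u • u • φ.1 x := by
  obtain ⟨z, hz⟩ := u.z2.mlt φ.1 φ.2.1 x
  refine ⟨z * (G φ u)⁻¹, ?_⟩
  rw [smul_smul, inv_mul_cancel_right]
  exact hz

noncomputable def md (φ : Inn Q) (u : A Q) (x : Q) : Zc Q := (md_ex φ u x).choose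

theorem md_spec (φ : Inn Q) (u : A Q) (x : Q) :
    φ.1 (u • x) = md φ u x • G φ u • u • φ.1 x := (md_ex φ u x).choose_spec

theorem A_z_comm (u : A Q) (z : Zc Q) (x : Q) : u • z • x = z • u • x := smul_comm u z x

theorem A_ld (u : A Q) (x : Q) : u.1 \ x = u⁻¹ • x := ld_eq (by
  show u • u⁻¹ • x = x
  rw [smul_inv_smul])

theorem zA_smul (z : Zc Q) (u : A Q) (x : Q) : z • u • x = (ofZ z * u) • x := by
  rw [mul_smul, ofZ_smul]

/-- multiplicativity of an inner mapping at an element of `A` -/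
def MultP (ψ : Inn Q) (u : A Q) : Prop := ∀ x, md ψ u x = 1

theorem MultP.spec {ψ : Inn Q} {u : A Q} (h : MultP ψ u) (x : Q) :
    ψ.1 (u • x) = ψ.1 u.1 * ψ.1 x := by
  rw [md_spec, h x, one_smul, G_spec, zmul]; rfl

theorem md_mul (ψ : Inn Q) (u v : A Q) (x : Q) : md ψ (u * v) x = md ψ u (v • x) * md ψ v x := by
  have h := md_spec ψ (u * v) x
  rw [mul_smul, md_spec, md_spec, G_mul_right, A_z_comm, A_z_comm, mul_smul] at h
  simp only [smul_smul] at h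
  have h2 := z_cancel h
  have e : md ψ u (v • x) * md ψ v x * (G ψ u * G ψ v)
      = md ψ (u * v) x * (G ψ u * G ψ v) := by
    rw [← mul_assoc (md ψ (u*v) x), mul_assoc (md ψ (u * v) x)] at *
    rw [← h2]
    simp only [mul_assoc, mul_comm, mul_left_comm]
  exact (mul_right_cancel e).symm

theorem MultP.inv {ψ : Inn Q} {u : A Q} (h : MultP ψ u) : MultP ψ u⁻¹ := fun x => by
  have h1 := md_mul ψ u u⁻¹ x
  rw [mul_inv_cancel, h, one_mul] at h1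
  rw [← h1]
  have h2 := md_spec ψ (1 : A Q) x
  simp only [one_smul, G_one_right] at h2
  exact z_eq_one h2.symm

/-- the exchange lemma -/
theorem exch (φ ψ : Inn Q) (p : Q) :
    (φ.1 p / p) \ φ.1 ((ψ.1 p / p) \ 1) = (ψ.1 p / p) \ ψ.1 ((φ.1 p / p) \ 1) := by
  have h := comm_fix (m := (L (φ.1 p / p))⁻¹ * φ.1) (n := (L (ψ.1 p / p))⁻¹ * ψ.1)
    ((Mlt Q).mul_mem ((Mlt Q).inv_mem (L_mem _)) φ.2.1)
    ((Mlt Q).mul_mem ((Mlt Q).inv_mem (L_mem _)) ψ.2.1) p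
    (by simp only [Equiv.Perm.mul_apply, L_inv_apply]; exact ld_eq (Lp.rd_mul _ _))
    (by simp only [Equiv.Perm.mul_apply, L_inv_apply]; exact ld_eq (Lp.rd_mul _ _))
  have := congrArg (fun m : Equiv.Perm Q => m 1) h
  simpa using this

end aim

end Pool.Agent.helper8.AimL
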