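import Mathlib

set_option autoImplicit false

namespace Pool.Agent.helper8.AimL

section alg
variable {X B : Type} [Mul X] [AddCommGroup B]

theorem alg1 (W : X → X → X → X → B) (Φ : X → X → X → X → X → B)
    (s1 : ∀ a b c d, W b a c d = - W a b c d)
    (s2 : ∀ a b c d, W a c b d = - W a b c d)
    (s3 : ∀ a b c d, W a b d c = - W a b c d)
    (p1 : ∀ a b c d e, Φ b a c d e = - Φ a b c d e)
    (p2 : ∀ a b c d e, Φ a c b d e = - Φ a b c d e)
    (p3 : ∀ a b c d e, Φ a b d c e = - Φ a b c d e)
    (p4 : ∀ a b c d e, Φ a b c e d = - Φ a b c d e)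
    (pent : ∀ v x y z r, W v x y (z * r) + W v (x * y) z r
      = Φ v x y z r + W v y z r + W v x (y * z) r + W v x y z)
    (swap : ∀ v x' x y z, W v (x' * x) y z = W v (x * x') y z + Φ v x' x y z) :
    (∀ a b c d e, Φ a b c d e = 0) ∧
      (∀ a a' b c d, W (a * a') b c d = W a b c d + W a' b c d) := by
  -- defect
  obtain ⟨E, hE⟩ : ∃ E : X → X → X → X → X → B, ∀ x x' v y z,
      E x x' v y z = W v (x * x') y z - W v x y z - W v x' y z := ⟨_, fun _ _ _ _ _ => rfl⟩
  have s13 : ∀ a b c d, W c b a d = - W a b c d := fun a b c d => by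
    rw [s1 b c a d, s2 b a c d, s1 a b c d]; simp
  have e34 : ∀ x x' v y z, E x x' y v z = - E x x' v y z := fun x x' v y z => by
    rw [hE, hE, s13 v (x * x') y z, s13 v x y z, s13 v x' y z]; abel
  have e45 : ∀ x x' v y z, E x x' v z y = - E x x' v y z := fun x x' v y z => by
    rw [hE, hE, s3 v (x * x') y z, s3 v x y z, s3 v x' y z]; abel
  have P : ∀ v x y z r, E z r v x y + E x y v z r + E y z v x r = Φ v x y z r := by
    intro v x y z r
    have h := pent v x y z r
    have a1 : W v x y (z * r) = W v (z * r) x y := by
      rw [s3 v x (z * r) y, s2 v (z * r) x y]; simp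
    have a2 : W v x (y * z) r = - W v (y * z) x r := s2 v (y * z) x r
    have a3 : W v z x y = W v x y z := by rw [s2 v x z y, s3 v x y z]; simp
    have a4 : W v r x y = W v x y r := by rw [s2 v x r y, s3 v x y r]; simp
    have a5 : W v y x r = - W v x y r := s2 v x y r
    have a6 : W v z x r = - W v x z r := s2 v x z r
    rw [a1, a2] at h
    rw [hE, hE, hE, a3, a4, a5, a6]
    linear_combination (norm := module) h
  -- total antisymmetry of E
  have e24 : ∀ q z v x y, E q v z x y = - E q z v x y := by
    intro q z v x y
    -- P at (v; x,y,q,z) and with z and v exchanged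
    have h1 := P v x y q z
    have h2 := P z x y q v
    have hp : Φ z x y q v = - Φ v x y q z := by
      rw [p4 z x y v q, p3 z x v y q, p2 z v x y q, p1 v z x y q, p2 v x z y q, p3 v x y z q,
        p4 v x y q z]
      simp
    -- E x y z q v = - E x y v q z
    have k1 : E x y z q v = - E x y v q z := by
      rw [e45 x y z v q, e34 x y v z q, e45 x y v q z]; simp
    have k2 : E y q z x v = - E y q v x z := by
      rw [e45 y q z v x, e34 y q v z x, e45 y q v x z]; simp
    rw [hp, k1, k2] at h2
    linear_combination (norm := module) h1 + h2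
  have e13 : ∀ x y v q z, E v y x q z = - E x y v q z := by
    intro x y v q z
    have h1 := P v x y q z
    have h2 := P x v y q z
    have hp : Φ x v y q z = - Φ v x y q z := p1 v x y q z
    have k1 : E y q x v z = - E y q v x z := e34 y q v x z
    have k2 : E q z x v y = - E q z v x y := e34 q z v x y
    rw [hp, k1, k2] at h2
    linear_combination (norm := module) h1 + h2
  have e23 : ∀ x y v q z, E x v y q z = - E x y v q z := e24
  have e12 : ∀ x y v q z, E y x v q z = - E x y v q z := by
    intro x y v q z
    rw [e13 v x y q z, e23 v y x q z, e13 x y v q z]; simp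
  have T3 : ∀ v x y z r, 3 • E x y v z r = Φ v x y z r := by
    intro v x y z r
    have h := P v x y z r
    have k1 : E z r v x y = E x y v z r := by
      -- (z,r,v,x,y) -> (x,y,v,z,r)
      have c1 : E z r v x y = - E x r v z y := by
        rw [e34 z r x v y, e13 x r z v y, e34 x r v z y]; simp
      have c2 : E x r v z y = - E x y v z r := by
        rw [e45 x r v y z, e34 x r y v z, e23 x y r v z, e34 x y v r z, e45 x y v z r]; simp
      rw [c1, c2]; simp
    have k2 : E y z v x r = E x y v z r := by
      have c1 : E y z v x r = - E x z v y r := by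
        rw [e34 y z x v r, e13 x z y v r, e34 x z v y r]; simp
      have c2 : E x z v y r = - E x y v z r := by
        rw [e34 x z y v r, e23 x y z v r, e34 x y v z r]; simp
      rw [c1, c2]; simp
    rw [k1, k2] at h
    linear_combination (norm := module) h
  have T2 : ∀ v x y z r, 2 • E x y v z r = Φ v x y z r := by
    intro v x y z r
    have h := swap v y x z r
    -- W v (y x) z r = W v (x y) z r + Φ v y x z r
    have h2 : E y x v z r = E x y v z r + Φ v y x z r := by
      rw [hE, hE, h]; abel
    rw [e12, p2 v x y z r] at h2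
    linear_combination (norm := module) - h2
  have E0 : ∀ v x y z r, E x y v z r = 0 := fun v x y z r => by
    linear_combination (norm := module) T3 v x y z r - T2 v x y z r
  refine ⟨fun a b c d e => ?_, fun a a' b c d => ?_⟩
  · rw [← T2, E0]; simp
  · have h := E0 b a a' c d
    rw [hE, s1 (a * a') b c d, s1 a b c d, s1 a' b c d] at h
    linear_combination (norm := module) - h

omit [Mul X] in
theorem alg2 (F : X → X → X → X → X → B)
    (s : ∀ a b c d e, F a b c d e = F c d a b e)
    (J : ∀ a b c d e, F a b c d e - F a b c e d + F a b e c d = 0) :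
    (∀ a b c d e, F b a c d e = - F a b c d e) ∧
    (∀ a b c d e, F a c b d e = - F a b c d e) ∧
    (∀ a b c d e, F a b d c e = - F a b c d e) ∧
    (∀ a b c d e, F a b c e d = - F a b c d e) ∧
    (∀ a b c d e, 3 • F a b c d e = 0) ∧
    (∀ a c d e, F a a c d e = 0) := by
  have a35 : ∀ a b c d e, F a b e d c = - F a b c d e := by
    intro a b c d e
    have h1 := J a b d e c
    have h2 := J a b d c e
    linear_combination (norm := module) h1 + h2
  have a15 : ∀ a b c d e, F e b c d a = - F a b c d e := fun a b c d e => by
    rw [s e b c d a, a35 c d a b e, s c d a b e]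
  have a13 : ∀ a b c d e, F c b a d e = - F a b c d e := fun a b c d e => by
    rw [a35 c b e d a, a15 a b e d c, a35 a b c d e]; simp
  have a24 : ∀ a b c d e, F a d c b e = - F a b c d e := fun a b c d e => by
    rw [a13 c d a b e, s c d a b e]
  have cyc : ∀ x b y d z, F y b z d x = F x b y d z := fun x b y d z => by
    rw [a15 x b z d y, a35 x b y d z]; simp
  -- h-relations
  have H : ∀ a b c d e, F a b c d e + F a b c e d = 0 ∧ 3 • F a b c d e = 0 := by
    intro a b c d e
    have j1 := J a b c d e
    have j2 := J c b d a e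
    have j3 := J d b a c e
    have j4 := J e b c a d
    -- unknowns: hd = F a b c d e, he = - F a b c e d, hc = F a b e c d, ha = F c b d a e
    have r1 : F c b d e a = F a b c e d := cyc a b c e d
    have r2 : F c b e d a = F a b c d e := cyc a b c d e
    have r3 : F d b a c e = F a b e c d := by rw [cyc e b d c a, cyc a b e c d]
    have r4 : F d b a e c = F a b c e d := by rw [cyc c b d e a, cyc a b c e d]
    have r5 : F d b e a c = F c b d a e := cyc c b d a e
    have r6 : F e b c a d = F c b d a e := by rw [cyc d b e a c, cyc c b d a e]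
    have r7 : F e b c d a = - F a b c d e := a15 a b c d e
    have r7' : F e b c d a = F a b e d c := cyc a b e d c
    have r8 : F e b d c a = F a b e c d := cyc a b e c d
    rw [r1, r2] at j2
    rw [r3, r4, r5] at j3
    rw [r6, r7, r8] at j4
    constructor
    · linear_combination (norm := module) j4 - j3
    · linear_combination (norm := module) j1 + j2 + j4 - (2 : ℤ) • j3
  have a45 : ∀ a b c d e, F a b c e d = - F a b c d e := fun a b c d e => by
    have := (H a b c d e).1
    linear_combination (norm := module) this
  have a34 : ∀ a b c d e, F a b d c e = - F a b c d e := fun a b c d e => by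
    rw [a45 a b d e c, a35 a b c e d, a45 a b c d e]; simp
  have a23 : ∀ a b c d e, F a c b d e = - F a b c d e := fun a b c d e => by
    rw [a34 a c d b e, a24 a b d c e, a34 a b c d e]; simp
  have a12 : ∀ a b c d e, F b a c d e = - F a b c d e := fun a b c d e => by
    rw [a23 b c a d e, a13 a c b d e, a23 a b c d e]; simp
  have a3 : ∀ a b c d e, 3 • F a b c d e = 0 := fun a b c d e => (H a b c d e).2
  refine ⟨a12, a23, a34, a45, a3, fun a c d e => ?_⟩
  have h1 := a12 a a c d e
  have h2 := a3 a a c d e
  linear_combination (norm := module) h2 - h1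

theorem alg3 (t : X → X → X → B) (W T : X → X → X → X → B)
    (t1 : ∀ x y z, t x z y = t y z x)
    (t2 : ∀ x y z, t x z y = - t x y z)
    (w : ∀ a b c d, W a b d c = - W a b c d)
    (T1 : ∀ a b c d, T b a c d = - T a b c d)
    (T2 : ∀ a b c d, 2 • T a b c d = 0)
    (add : ∀ x x' y z, t (x * x') y z = t x y z + t x' y z - 3 • W y z x x' + T x x' y z)
    (sw : ∀ z y x' x, t z y (x' * x) = t z y (x * x') + T z y x' x) :
    (∀ a b c d, 6 • W a b c d = 0) ∧ (∀ a b c d, T a b c d = 0) ∧
    (∀ x y z, t x y z = t y x z) ∧ (∀ x y z, 2 • t x y z = 0) := by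
  have q2 : ∀ x y z, 2 • t x y z = 0 := by
    intro x y z
    have h1 := t2 x y z
    have h2 := t1 x y z
    have h3 := t2 y x z
    have h4 := t1 y z x
    have h5 := t2 z x y
    have h6 := t1 x z y
    linear_combination (norm := module) h6 + h5 + h4 - h3 - h2 + h1
  have s12 : ∀ x y z, t x y z = t y x z := by
    intro x y z
    have h4 := t1 y z x
    have h5 := t2 z x y
    have h6 := t1 x z y
    have h7 := q2 y x z
    linear_combination (norm := module) h6 + h5 + h4 - h7
  have s13 : ∀ x y z, t z y x = t x y z := fun x y z => (t1 x z y).symm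
  have W6 : ∀ a b c d, 6 • W a b c d = 0 := by
    intro a b c d
    have h := add c d a b
    have h1 := q2 (c * d) a b
    have h2 := q2 c a b
    have h3 := q2 d a b
    have h4 := T2 c d a b
    linear_combination (norm := module) (2 : ℤ) • h - h1 + h2 + h3 + h4
  refine ⟨W6, fun z y x' x => ?_, s12, q2⟩
  have h1 := add x' x y z
  have h2 := add x x' y z
  have h3 := sw z y x' x
  have h4 := s13 (x' * x) y z
  have h5 := s13 (x * x') y z
  have h6 := w y z x x'
  have h7 := W6 y z x x'
  have h8 := T1 x x' y z
  have h9 := T2 x x' y z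
  linear_combination (norm := module) - h3 + h4 - h5 + h1 - h2 - (3 : ℤ) • h6 + h7 + h8 - h9
end alg

end Pool.Agent.helper8.AimL
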