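import Mathlib

set_option autoImplicit false

namespace Pool.Agent.helper8.AimL

/-- loops, with left division `a \ b` and right division `b / a` -/
class Lp (Q : Type) extends Mul Q, One Q, Div Q, SDiff Q where
  omul : ∀ x : Q, 1 * x = x
  mulo : ∀ x : Q, x * 1 = x
  mul_ld : ∀ a b : Q, a * (a \ b) = b
  ld_mul : ∀ a b : Q, a \ (a * b) = b
  rd_mul : ∀ a b : Q, (b / a) * a = b
  mul_rd : ∀ a b : Q, (b * a) / a = b

attribute [simp] Lp.omul Lp.mulo Lp.mul_ld Lp.ld_mul Lp.rd_mul Lp.mul_rd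

section basic

variable {Q : Type} [Lp Q]

theorem lcan {a b c : Q} (h : a * b = a * c) : b = c := by
  have := congrArg (fun t => a \ t) h
  simpa using this

theorem rcan {a b c : Q} (h : b * a = c * a) : b = c := by
  have := congrArg (fun t => t / a) h
  simpa using this

theorem ld_eq {a b c : Q} (h : a * c = b) : a \ b = c := by
  rw [← h]; simp

theorem rd_eq {a b c : Q} (h : c * a = b) : b / a = c := by
  rw [← h]; simp

@[simp] theorem one_ld (a : Q) : (1 : Q) \ a = a := ld_eq (by simp)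
@[simp] theorem rd_one (a : Q) : a / (1 : Q) = a := rd_eq (by simp)
@[simp] theorem ld_self (a : Q) : a \ a = 1 := ld_eq (by simp)
@[simp] theorem rd_self (a : Q) : a / a = 1 := rd_eq (by simp)

/-- left translation -/
def L (x : Q) : Equiv.Perm Q where
  toFun y := x * y
  invFun y := x \ y
  left_inv y := by simp
  right_inv y := by simp

/-- right translation -/
def R (x : Q) : Equiv.Perm Q where
  toFun y := y * x
  invFun y := y / x
  left_inv y := by simp
  right_inv y := by simp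

@[simp] theorem L_apply (x y : Q) : L x y = x * y := rfl
@[simp] theorem R_apply (x y : Q) : R x y = y * x := rfl
@[simp] theorem L_inv_apply (x y : Q) : (L x)⁻¹ y = x \ y := rfl
@[simp] theorem R_inv_apply (x y : Q) : (R x)⁻¹ y = y / x := rfl
@[simp] theorem L_symm_apply (x y : Q) : (L x).symm y = x \ y := rfl
@[simp] theorem R_symm_apply (x y : Q) : (R x).symm y = y / x := rfl
@[simp] theorem L_one : L (1 : Q) = 1 := by ext; simp
@[simp] theorem R_one : R (1 : Q) = 1 := by ext; simp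

variable (Q) in
/-- the multiplication group -/
def Mlt : Subgroup (Equiv.Perm Q) := Subgroup.closure {m | ∃ x : Q, m = L x ∨ m = R x}

theorem L_mem (x : Q) : L x ∈ Mlt Q := Subgroup.subset_closure ⟨x, Or.inl rfl⟩
theorem R_mem (x : Q) : R x ∈ Mlt Q := Subgroup.subset_closure ⟨x, Or.inr rfl⟩

/-- permutation forms of the generators -/
def Tp (x : Q) : Equiv.Perm Q := (R x)⁻¹ * L x
def Lip (x y : Q) : Equiv.Perm Q := (L (x * y))⁻¹ * L x * L y
def Rip (x y : Q) : Equiv.Perm Q := (R (x * y))⁻¹ * R y * R x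
def Xip (x y : Q) : Equiv.Perm Q := (L x)⁻¹ * (R y)⁻¹ * L x * R y

@[simp] theorem Tp_apply (x z : Q) : Tp x z = (x * z) / x := rfl
@[simp] theorem Lip_apply (x y z : Q) : Lip x y z = (x * y) \ (x * (y * z)) := rfl
@[simp] theorem Rip_apply (x y z : Q) : Rip x y z = ((z * x) * y) / (x * y) := rfl
@[simp] theorem Xip_apply (x y z : Q) : Xip x y z = x \ ((x * (z * y)) / y) := rfl

variable (Q) in
/-- loops with abelian inner mapping group -/
class Aim : Prop where
  comm : ∀ m ∈ Mlt Q, ∀ n ∈ Mlt Q, m 1 = 1 → n 1 = 1 → m * n = n * m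

/-- generating inner mappings -/
def IsGen (f : Q → Q) : Prop :=
  (∃ x y, f = fun z => (x * y) \ (x * (y * z))) ∨
  (∃ x y, f = fun z => ((z * x) * y) / (x * y)) ∨
  (∃ x, f = fun z => (x * z) / x)

variable (Q) in
def genSet : Set (Equiv.Perm Q) := {h | ∃ x y, h = Tp x ∨ h = Lip x y ∨ h = Rip x y}

theorem aux_mlt_fact (m : Equiv.Perm Q) (hm : m ∈ Mlt Q) :
    ∃ x : Q, ∃ h ∈ Subgroup.closure (genSet Q), m = L x * h := by
  set I := Subgroup.closure (genSet Q) with hI
  have hT : ∀ x : Q, Tp x ∈ I := fun x => Subgroup.subset_closure ⟨x, x, Or.inl rfl⟩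
  have hL : ∀ x y : Q, Lip x y ∈ I := fun x y => Subgroup.subset_closure ⟨x, y, Or.inr (Or.inl rfl)⟩
  have hR : ∀ x y : Q, Rip x y ∈ I := fun x y => Subgroup.subset_closure ⟨x, y, Or.inr (Or.inr rfl)⟩
  have key1 : ∀ y x : Q, ∃ h ∈ I, L y * L x = L (y * x) * h := fun y x =>
    ⟨Lip y x, hL y x, by simp only [Lip]; group⟩
  have key2 : ∀ y x : Q, ∃ h ∈ I, R y * L x = L (x * y) * h := fun y x =>
    ⟨(Tp (x * y))⁻¹ * Rip x y * Tp x, I.mul_mem (I.mul_mem (I.inv_mem (hT _)) (hR _ _)) (hT _), by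
      simp only [Tp, Rip]; group⟩
  have hone : ∃ x : Q, ∃ h ∈ I, (1 : Equiv.Perm Q) = L x * h := ⟨1, 1, I.one_mem, by simp⟩
  refine Subgroup.closure_induction_left (p := fun m _ => ∃ x : Q, ∃ h ∈ I, m = L x * h) hone ?_ ?_ hm
  · rintro g ⟨y, rfl | rfl⟩ m _ ⟨x, h, hh, rfl⟩
    · obtain ⟨k, hk, e⟩ := key1 y x
      exact ⟨y * x, k * h, I.mul_mem hk hh, by rw [← mul_assoc, e, mul_assoc]⟩
    · obtain ⟨k, hk, e⟩ := key2 y x
      exact ⟨x * y, k * h, I.mul_mem hk hh, by rw [← mul_assoc, e, mul_assoc]⟩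
  · rintro g ⟨y, rfl | rfl⟩ m _ ⟨x, h, hh, rfl⟩
    · obtain ⟨k, hk, e⟩ := key1 y (y \ x)
      refine ⟨y \ x, k⁻¹ * h, I.mul_mem (I.inv_mem hk) hh, ?_⟩
      have : L x = L y * L (y \ x) * k⁻¹ := by rw [e]; simp
      rw [this]; group
    · obtain ⟨k, hk, e⟩ := key2 y (x / y)
      refine ⟨x / y, k⁻¹ * h, I.mul_mem (I.inv_mem hk) hh, ?_⟩
      have : L x = R y * L (x / y) * k⁻¹ := by rw [e]; simp
      rw [this]; group

theorem genSet_fix (h : Equiv.Perm Q) (hh : h ∈ Subgroup.closure (genSet Q)) : h 1 = 1 := by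
  have : Subgroup.closure (genSet Q) ≤ MulAction.stabilizer (Equiv.Perm Q) (1 : Q) := by
    rw [Subgroup.closure_le]
    rintro g ⟨x, y, rfl | rfl | rfl⟩ <;> simp [MulAction.mem_stabilizer_iff]
  exact MulAction.mem_stabilizer_iff.mp (this hh)

theorem aim_of_gen (H : ∀ f g : Q → Q, IsGen f → IsGen g → f ∘ g = g ∘ f) : Aim Q := by
  have hc : ∀ x ∈ genSet Q, ∀ y ∈ genSet Q, x * y = y * x := by
    have isg : ∀ x ∈ genSet Q, IsGen (x : Q → Q) := by
      rintro g ⟨x, y, rfl | rfl | rfl⟩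
      · exact Or.inr (Or.inr ⟨x, rfl⟩)
      · exact Or.inl ⟨x, y, rfl⟩
      · exact Or.inr (Or.inl ⟨x, y, rfl⟩)
    intro x hx y hy
    have := H x y (isg x hx) (isg y hy)
    ext z
    exact congrFun this z
  refine ⟨fun m hm n hn hm1 hn1 => ?_⟩
  obtain ⟨x, h, hh, rfl⟩ := aux_mlt_fact m hm
  obtain ⟨y, k, hk, rfl⟩ := aux_mlt_fact n hn
  have hx : x = 1 := by simpa [genSet_fix h hh] using hm1
  have hy : y = 1 := by simpa [genSet_fix k hk] using hn1
  subst hx; subst hy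
  have hic := Subgroup.isMulCommutative_closure hc
  have := hic.is_comm.comm (⟨h, hh⟩ : Subgroup.closure (genSet Q)) ⟨k, hk⟩
  simpa using congrArg Subtype.val this

end basic

end Pool.Agent.helper8.AimL
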