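import Pool.Agent.helper8.Aim.Basic

set_option autoImplicit false
set_option linter.unusedSectionVars false

namespace Pool.Agent.helper8.AimL

section inn
variable {Q : Type} [Lp Q]

variable (Q) in
/-- the inner mapping group -/
def Inn : Subgroup (Equiv.Perm Q) where
  carrier := {m | m ∈ Mlt Q ∧ m 1 = 1}
  one_mem' := ⟨(Mlt Q).one_mem, rfl⟩
  mul_mem' := by
    rintro a b ⟨ha, ha1⟩ ⟨hb, hb1⟩
    exact ⟨(Mlt Q).mul_mem ha hb, by simp [hb1, ha1]⟩
  inv_mem' := by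
    rintro a ⟨ha, ha1⟩
    refine ⟨(Mlt Q).inv_mem ha, ?_⟩
    rw [Equiv.Perm.inv_eq_iff_eq, ha1]

theorem Inn.mem (φ : Inn Q) : φ.1 ∈ Mlt Q := φ.2.1
@[simp] theorem Inn.map_one (φ : Inn Q) : φ.1 1 = 1 := φ.2.2

instance instCommInn [Aim Q] : CommGroup (Inn Q) :=
  { (inferInstance : Group (Inn Q)) with
    mul_comm := fun a b => Subtype.ext (Aim.comm a.1 a.2.1 b.1 b.2.1 a.2.2 b.2.2) }

theorem Tp_mem (x : Q) : Tp x ∈ Mlt Q :=
  (Mlt Q).mul_mem ((Mlt Q).inv_mem (R_mem _)) (L_mem _)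
theorem Lip_mem (x y : Q) : Lip x y ∈ Mlt Q :=
  (Mlt Q).mul_mem ((Mlt Q).mul_mem ((Mlt Q).inv_mem (L_mem _)) (L_mem _)) (L_mem _)
theorem Rip_mem (x y : Q) : Rip x y ∈ Mlt Q :=
  (Mlt Q).mul_mem ((Mlt Q).mul_mem ((Mlt Q).inv_mem (R_mem _)) (R_mem _)) (R_mem _)
theorem Xip_mem (x y : Q) : Xip x y ∈ Mlt Q :=
  (Mlt Q).mul_mem ((Mlt Q).mul_mem ((Mlt Q).mul_mem ((Mlt Q).inv_mem (L_mem _))
    ((Mlt Q).inv_mem (R_mem _))) (L_mem _)) (R_mem _)

def T (x : Q) : Inn Q := ⟨Tp x, Tp_mem x, by simp⟩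
def Li (x y : Q) : Inn Q := ⟨Lip x y, Lip_mem x y, by simp⟩
def Ri (x y : Q) : Inn Q := ⟨Rip x y, Rip_mem x y, by simp⟩
def Xi (x y : Q) : Inn Q := ⟨Xip x y, Xip_mem x y, by simp⟩

theorem T_apply (x z : Q) : (T x).1 z = (x * z) / x := rfl
theorem Li_apply (x y z : Q) : (Li x y).1 z = (x * y) \ (x * (y * z)) := rfl
theorem Ri_apply (x y z : Q) : (Ri x y).1 z = ((z * x) * y) / (x * y) := rfl
theorem Xi_apply (x y z : Q) : (Xi x y).1 z = x \ ((x * (z * y)) / y) := rfl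

theorem T_spec (x z : Q) : (T x).1 z * x = x * z := by simp [T_apply]
theorem Li_spec (x y z : Q) : (x * y) * (Li x y).1 z = x * (y * z) := by simp [Li_apply]
theorem Ri_spec (x y z : Q) : (Ri x y).1 z * (x * y) = (z * x) * y := by simp [Ri_apply]
theorem Xi_spec (x y z : Q) : (x * (Xi x y).1 z) * y = x * (z * y) := by simp [Xi_apply]

@[simp] theorem T_self (x : Q) : (T x).1 x = x := by simp [T_apply]

/-- the commutation in the multiplication group `T_{xy} L_{x,y} = R_{x,y} T_x Ξ_{x,y} T_y` -/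
theorem T_mul (x y : Q) : T (x * y) * Li x y = Ri x y * T x * Xi x y * T y := by
  apply Subtype.ext
  show Tp (x * y) * Lip x y = Rip x y * Tp x * Xip x y * Tp y
  simp only [Tp, Lip, Rip, Xip]
  group

end inn

section center
variable {Q : Type} [Lp Q]

/-- centrality -/
def IsCen (z : Q) : Prop := (∀ x y, x * (z * y) = z * (x * y)) ∧ (∀ x y, (z * x) * y = z * (x * y))

variable (Q) in
/-- the center -/
@[ext] structure Zc : Type where
  val : Q
  cen : IsCen val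

theorem IsCen.one : IsCen (1 : Q) := ⟨fun x y => by simp, fun x y => by simp⟩
theorem IsCen.comm {z : Q} (h : IsCen z) (x : Q) : x * z = z * x := by simpa using h.1 x 1

theorem IsCen.mul {z w : Q} (h : IsCen z) (k : IsCen w) : IsCen (z * w) := by
  refine ⟨fun x y => ?_, fun x y => ?_⟩
  · rw [h.2, h.1, k.1, h.2]
  · rw [h.2, h.2, k.2, h.2]

theorem IsCen.inv {z : Q} (h : IsCen z) : IsCen (z \ 1) := by
  have e : ∀ x, z * ((z \ 1) * x) = x := fun x => by rw [← h.2]; simp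
  refine ⟨fun x y => ?_, fun x y => ?_⟩
  · apply lcan (a := z)
    rw [e, ← h.1, e]
  · apply lcan (a := z)
    rw [← h.2, e, e]

instance : Mul (Zc Q) := ⟨fun a b => ⟨a.1 * b.1, a.2.mul b.2⟩⟩
instance : One (Zc Q) := ⟨⟨1, IsCen.one⟩⟩
instance : Inv (Zc Q) := ⟨fun a => ⟨a.1 \ 1, a.2.inv⟩⟩

instance instCommZc : CommGroup (Zc Q) where
  mul_assoc a b c := Zc.ext (a.2.2 b.1 c.1)
  one_mul a := Zc.ext (Lp.omul a.1)
  mul_one a := Zc.ext (Lp.mulo a.1)
  inv_mul_cancel a := Zc.ext (by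
    show (a.1 \ 1) * a.1 = 1
    rw [a.2.comm]; simp)
  mul_comm a b := Zc.ext (b.2.comm a.1)

theorem Zc.val_mul (a b : Zc Q) : (a * b).1 = a.1 * b.1 := rfl
theorem Zc.val_one : (1 : Zc Q).1 = 1 := rfl

instance : MulAction (Zc Q) Q where
  smul z x := z.1 * x
  one_smul x := Lp.omul x
  mul_smul a b x := a.2.2 b.1 x

theorem Zc.smul_def (z : Zc Q) (x : Q) : z • x = z.1 * x := rfl
@[simp] theorem Zc.smul_one' (z : Zc Q) : z • (1 : Q) = z.1 := Lp.mulo z.1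

instance : IsScalarTower (Zc Q) Q Q := ⟨fun z x y => z.2.2 x y⟩
instance : SMulCommClass (Zc Q) Q Q := ⟨fun z x y => (z.2.1 x y).symm⟩

@[simp] theorem zmul (z : Zc Q) (x y : Q) : (z • x) * y = z • (x * y) := z.2.2 x y
@[simp] theorem mulz (z : Zc Q) (x y : Q) : x * (z • y) = z • (x * y) := z.2.1 x y

@[simp] theorem zld (z : Zc Q) (x y : Q) : (z • x) \ y = z⁻¹ • (x \ y) := ld_eq (by simp)
@[simp] theorem ldz (z : Zc Q) (x y : Q) : x \ (z • y) = z • (x \ y) := ld_eq (by simp)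
@[simp] theorem zrd (z : Zc Q) (x y : Q) : (z • x) / y = z • (x / y) := rd_eq (by simp)
@[simp] theorem rdz (z : Zc Q) (x y : Q) : x / (z • y) = z⁻¹ • (x / y) := rd_eq (by simp)

theorem z_mul_eq (z : Zc Q) (x : Q) : z.1 * x = z • x := rfl
theorem mul_z_eq (z : Zc Q) (x : Q) : x * z.1 = z • x := z.2.comm x

theorem z_cancel {z w : Zc Q} {x : Q} (h : z • x = w • x) : z = w := Zc.ext (rcan h)

theorem z_eq_one {z : Zc Q} {x : Q} (h : z • x = x) : z = 1 :=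
  z_cancel (x := x) (by rw [h, one_smul])

theorem mlt_z (m : Equiv.Perm Q) (hm : m ∈ Mlt Q) : ∀ (z : Zc Q) (x : Q), m (z • x) = z • m x := by
  refine Subgroup.closure_induction (p := fun m _ => ∀ (z : Zc Q) (x : Q), m (z • x) = z • m x)
    ?_ ?_ ?_ ?_ hm
  · rintro g ⟨y, rfl | rfl⟩ z x <;> simp
  · intro z x; rfl
  · intro a b _ _ ha hb z x
    simp [ha, hb]
  · intro a _ ha z x
    rw [Equiv.Perm.inv_eq_iff_eq, ha]; simp

@[simp] theorem inn_z (φ : Inn Q) (z : Zc Q) (x : Q) : φ.1 (z • x) = z • φ.1 x :=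
  mlt_z φ.1 φ.2.1 z x

@[simp] theorem inn_zval (φ : Inn Q) (z : Zc Q) : φ.1 z.1 = z.1 := by
  have := inn_z φ z 1
  simpa using this

/-- an element fixed by the generating inner mappings is central -/
theorem isCen_of_fix {z : Q} (h1 : ∀ x, (T x).1 z = z) (h2 : ∀ x y, (Li x y).1 z = z)
    (h3 : ∀ x y, (Ri x y).1 z = z) : IsCen z := by
  have c : ∀ x, x * z = z * x := fun x => by rw [← T_spec, h1]
  have l : ∀ x y, x * (y * z) = (x * y) * z := fun x y => by rw [← Li_spec, h2]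
  have r : ∀ x y, (z * x) * y = z * (x * y) := fun x y => by rw [← Ri_spec, h3]
  exact ⟨fun x y => by rw [← c y, l, c], r⟩

/-- `k` is the identity modulo the center -/
def InK (k : Equiv.Perm Q) : Prop := ∀ x, ∃ z : Zc Q, k x = z • x

def IsD1 (w : Q) : Prop := ∀ k ∈ Mlt Q, InK k → k * L w = L w * k

def IsZ2 (u : Q) : Prop := ∀ φ : Inn Q, ∃ z : Zc Q, φ.1 u = z • u

end center

section aim
variable {Q : Type} [Lp Q] [Aim Q]

theorem comm_fix {m n : Equiv.Perm Q} (hm : m ∈ Mlt Q) (hn : n ∈ Mlt Q) (p : Q)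
    (h1 : m p = p) (h2 : n p = p) : m * n = n * m := by
  have hL := L_mem p
  have k := Aim.comm ((L p)⁻¹ * m * L p)
    ((Mlt Q).mul_mem ((Mlt Q).mul_mem ((Mlt Q).inv_mem hL) hm) hL)
    ((L p)⁻¹ * n * L p)
    ((Mlt Q).mul_mem ((Mlt Q).mul_mem ((Mlt Q).inv_mem hL) hn) hL)
    (by simp [h1]) (by simp [h2])
  have : m * n = L p * (((L p)⁻¹ * m * L p) * ((L p)⁻¹ * n * L p)) * (L p)⁻¹ := by group
  rw [this, k]; group

theorem Lz_comm (z : Zc Q) {m : Equiv.Perm Q} (hm : m ∈ Mlt Q) : L z.1 * m = m * L z.1 := by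
  ext x
  exact (mlt_z m hm z x).symm

theorem K_comm_fix {k m : Equiv.Perm Q} (hk : k ∈ Mlt Q) (hK : InK k) (hm : m ∈ Mlt Q) (p : Q)
    (hp : m p = p) : k * m = m * k := by
  obtain ⟨z, hz⟩ := hK p
  have h := comm_fix (m := (L z.1)⁻¹ * k) (n := m)
    ((Mlt Q).mul_mem ((Mlt Q).inv_mem (L_mem _)) hk) hm p
    (by
      simp only [Equiv.Perm.mul_apply, hz]
      rw [Equiv.Perm.inv_eq_iff_eq]; rfl) hp
  have c := Lz_comm z hm
  calc k * m = L z.1 * ((L z.1)⁻¹ * k * m) := by group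
    _ = L z.1 * (m * ((L z.1)⁻¹ * k)) := by rw [h]
    _ = (L z.1 * m) * (L z.1)⁻¹ * k := by group
    _ = m * k := by rw [c]; group

theorem K_comm_inn {k : Equiv.Perm Q} (hk : k ∈ Mlt Q) (hK : InK k) (φ : Inn Q) :
    k * φ.1 = φ.1 * k := K_comm_fix hk hK φ.2.1 1 φ.2.2

/-- the twisted inner mapping: `φ (x y) = φ x * (tw φ x) y` -/
def tw (φ : Inn Q) (x : Q) : Inn Q :=
  ⟨(L (φ.1 x))⁻¹ * φ.1 * L x,
    (Mlt Q).mul_mem ((Mlt Q).mul_mem ((Mlt Q).inv_mem (L_mem _)) φ.2.1) (L_mem _), by simp⟩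

theorem tw_spec (φ : Inn Q) (x y : Q) : φ.1 (x * y) = φ.1 x * (tw φ x).1 y := by
  simp [tw]

theorem tw_perm (φ : Inn Q) (x : Q) : φ.1 * L x = L (φ.1 x) * (tw φ x).1 := by
  simp only [tw]; group

theorem disp_D1 (φ : Inn Q) (p : Q) : IsD1 (φ.1 p / p) := by
  intro k hk hK
  have h1 := K_comm_inn hk hK φ
  have hm : φ.1⁻¹ * L (φ.1 p / p) ∈ Mlt Q := (Mlt Q).mul_mem ((Mlt Q).inv_mem φ.2.1) (L_mem _)
  have h2 := K_comm_fix hk hK hm p (by simp)
  calc k * L (φ.1 p / p) = (k * φ.1) * (φ.1⁻¹ * L (φ.1 p / p)) := by group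
    _ = φ.1 * (k * (φ.1⁻¹ * L (φ.1 p / p))) := by rw [h1]; group
    _ = L (φ.1 p / p) * k := by rw [h2]; group

theorem IsD1.mul {w v : Q} (hw : IsD1 w) (hv : IsD1 v) : IsD1 (w * v) := by
  intro k hk hK
  have e : L (w * v) = L w * L v * (Li w v).1⁻¹ := by
    show L (w * v) = L w * L v * (Lip w v)⁻¹
    simp only [Lip]; group
  have h1 := hw k hk hK
  have h2 := hv k hk hK
  have h3 := K_comm_inn hk hK (Li w v)⁻¹
  have h3' : k * (Li w v).1⁻¹ = (Li w v).1⁻¹ * k := by simpa using h3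
  rw [e]
  calc k * (L w * L v * (Li w v).1⁻¹) = (k * L w) * L v * (Li w v).1⁻¹ := by group
    _ = L w * (k * L v) * (Li w v).1⁻¹ := by rw [h1]; group
    _ = L w * L v * (k * (Li w v).1⁻¹) := by rw [h2]; group
    _ = L w * L v * (Li w v).1⁻¹ * k := by rw [h3']; group

theorem IsD1.one : IsD1 (1 : Q) := by
  intro k _ _
  simp

theorem IsD1.ld {w v : Q} (hw : IsD1 w) (hv : IsD1 v) : IsD1 (w \ v) := by
  intro k hk hK
  have e : L (w \ v) = (L w)⁻¹ * L v * (Li w (w \ v)).1 := by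
    show L (w \ v) = (L w)⁻¹ * L v * (Lip w (w \ v))
    simp only [Lip, Lp.mul_ld]; group
  have h1 : k * (L w)⁻¹ = (L w)⁻¹ * k := by
    have := hw k hk hK
    calc k * (L w)⁻¹ = (L w)⁻¹ * (L w * k) * (L w)⁻¹ := by group
      _ = (L w)⁻¹ * k := by rw [← this]; group
  have h2 := hv k hk hK
  have h3 := K_comm_inn hk hK (Li w (w \ v))
  rw [e]
  calc k * ((L w)⁻¹ * L v * (Li w (w \ v)).1) = (k * (L w)⁻¹) * L v * (Li w (w \ v)).1 := by group
    _ = (L w)⁻¹ * (k * L v) * (Li w (w \ v)).1 := by rw [h1]; group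
    _ = (L w)⁻¹ * L v * (k * (Li w (w \ v)).1) := by rw [h2]; group
    _ = (L w)⁻¹ * L v * (Li w (w \ v)).1 * k := by rw [h3]; group

theorem IsD1.rd {w v : Q} (hw : IsD1 w) (hv : IsD1 v) : IsD1 (v / w) := by
  intro k hk hK
  have e : L (v / w) = L v * (Li (v / w) w).1 * (L w)⁻¹ := by
    show L (v / w) = L v * (Lip (v / w) w) * (L w)⁻¹
    simp only [Lip, Lp.rd_mul]; group
  have h1 : k * (L w)⁻¹ = (L w)⁻¹ * k := by
    have := hw k hk hK
    calc k * (L w)⁻¹ = (L w)⁻¹ * (L w * k) * (L w)⁻¹ := by group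
      _ = (L w)⁻¹ * k := by rw [← this]; group
  have h2 := hv k hk hK
  have h3 := K_comm_inn hk hK (Li (v / w) w)
  rw [e]
  calc k * (L v * (Li (v / w) w).1 * (L w)⁻¹) = (k * L v) * (Li (v / w) w).1 * (L w)⁻¹ := by group
    _ = L v * (k * (Li (v / w) w).1) * (L w)⁻¹ := by rw [h2]; group
    _ = L v * (Li (v / w) w).1 * (k * (L w)⁻¹) := by rw [h3]; group
    _ = L v * (Li (v / w) w).1 * (L w)⁻¹ * k := by rw [h1]; group

theorem IsD1.map {w : Q} (hw : IsD1 w) (φ : Inn Q) : IsD1 (φ.1 w) := by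
  intro k hk hK
  have e : L (φ.1 w) = φ.1 * L w * (tw φ w).1⁻¹ := by rw [tw_perm]; group
  have h1 := hw k hk hK
  have h2 := K_comm_inn hk hK φ
  have h3 : k * (tw φ w).1⁻¹ = (tw φ w).1⁻¹ * k := by simpa using K_comm_inn hk hK (tw φ w)⁻¹
  rw [e]
  calc k * (φ.1 * L w * (tw φ w).1⁻¹) = (k * φ.1) * L w * (tw φ w).1⁻¹ := by group
    _ = φ.1 * (k * L w) * (tw φ w).1⁻¹ := by rw [h2]; group
    _ = φ.1 * L w * (k * (tw φ w).1⁻¹) := by rw [h1]; group
    _ = φ.1 * L w * (tw φ w).1⁻¹ * k := by rw [h3]; group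

/-- an inner mapping trivial modulo the center fixes `D1` -/
theorem K_fix {k : Inn Q} (hK : InK k.1) {w : Q} (hw : IsD1 w) : k.1 w = w := by
  have := hw k.1 k.2.1 hK
  have := congrArg (fun m : Equiv.Perm Q => m 1) this
  simpa using this

end aim

end Pool.Agent.helper8.AimL
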