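import Pool.Agent.helper8.Aim.PLem

set_option autoImplicit false
set_option linter.unusedSectionVars false

namespace Pool.Agent.helper8.AimL

/-- `P` is the quotient of `Q` by its center -/
structure CExt (Q P : Type) [Lp Q] [Lp P] where
  π : Q → P
  mul : ∀ x y, π (x * y) = π x * π y
  surj : Function.Surjective π
  ker : ∀ x y, π x = π y → ∃ z : Zc Q, x = z • y
  kz : ∀ (z : Zc Q) (x : Q), π (z • x) = π x

namespace CExt

section a
variable {Q P : Type} [Lp Q] [Lp P] (E : CExt Q P)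

theorem one : E.π 1 = 1 := by
  have := E.mul 1 1
  rw [Lp.mulo] at this
  exact rcan (a := E.π 1) (by rw [← this, Lp.omul])

theorem ld (x y : Q) : E.π (x \ y) = E.π x \ E.π y := by
  symm; apply ld_eq; rw [← E.mul]; simp

theorem rd (x y : Q) : E.π (x / y) = E.π x / E.π y := by
  symm; apply rd_eq; rw [← E.mul]; simp

theorem bar_ex (m : Equiv.Perm Q) (hm : m ∈ Mlt Q) :
    ∃ n ∈ Mlt P, ∀ x, E.π (m x) = n (E.π x) := by
  refine Subgroup.closure_induction (p := fun m _ => ∃ n ∈ Mlt P, ∀ x, E.π (m x) = n (E.π x))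
    ?_ ?_ ?_ ?_ hm
  · rintro g ⟨y, rfl | rfl⟩
    · exact ⟨L (E.π y), L_mem _, fun x => by simp [E.mul]⟩
    · exact ⟨R (E.π y), R_mem _, fun x => by simp [E.mul]⟩
  · exact ⟨1, (Mlt P).one_mem, fun x => rfl⟩
  · rintro a b _ _ ⟨n, hn, h1⟩ ⟨k, hk, h2⟩
    exact ⟨n * k, (Mlt P).mul_mem hn hk, fun x => by simp [h1, h2]⟩
  · rintro a _ ⟨n, hn, h1⟩
    refine ⟨n⁻¹, (Mlt P).inv_mem hn, fun x => ?_⟩
    rw [eq_comm, Equiv.Perm.inv_eq_iff_eq, ← h1]; simp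

theorem bar_ex' (φ : Inn Q) : ∃ ψ : Inn P, ∀ x, E.π (φ.1 x) = ψ.1 (E.π x) := by
  obtain ⟨n, hn, h⟩ := E.bar_ex φ.1 φ.2.1
  refine ⟨⟨n, hn, ?_⟩, h⟩
  rw [← E.one, ← h, Inn.map_one]

/-- induced inner mapping of the quotient -/
noncomputable def bar (φ : Inn Q) : Inn P := (E.bar_ex' φ).choose

theorem bar_spec (φ : Inn Q) (x : Q) : E.π (φ.1 x) = (E.bar φ).1 (E.π x) :=
  (E.bar_ex' φ).choose_spec x

theorem bar_uniq {φ : Inn Q} {ψ : Inn P} (h : ∀ x, E.π (φ.1 x) = ψ.1 (E.π x)) : E.bar φ = ψ := by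
  apply Subtype.ext
  apply Equiv.ext
  intro p
  obtain ⟨x, rfl⟩ := E.surj p
  rw [← bar_spec, h]

@[simp] theorem bar_T (x : Q) : E.bar (T x) = T (E.π x) := E.bar_uniq fun z => by
  simp only [T_apply, E.mul, E.rd]
@[simp] theorem bar_Li (x y : Q) : E.bar (Li x y) = Li (E.π x) (E.π y) := E.bar_uniq fun z => by
  simp only [Li_apply, E.mul, E.ld]
@[simp] theorem bar_Ri (x y : Q) : E.bar (Ri x y) = Ri (E.π x) (E.π y) := E.bar_uniq fun z => by
  simp only [Ri_apply, E.mul, E.rd]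
@[simp] theorem bar_Xi (x y : Q) : E.bar (Xi x y) = Xi (E.π x) (E.π y) := E.bar_uniq fun z => by
  simp only [Xi_apply, E.mul, E.ld, E.rd]

theorem bar_mul (φ ψ : Inn Q) : E.bar (φ * ψ) = E.bar φ * E.bar ψ := E.bar_uniq fun z => by
  show E.π (φ.1 (ψ.1 z)) = (E.bar φ).1 ((E.bar ψ).1 (E.π z))
  rw [bar_spec, bar_spec]

/-- elements of the second center are those with central image -/
theorem cen_of_z2 {u : Q} (h : IsZ2 u) : IsCen (E.π u) := by
  refine ⟨fun x y => ?_, fun x y => ?_⟩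
  · obtain ⟨a, rfl⟩ := E.surj x
    obtain ⟨b, rfl⟩ := E.surj y
    obtain ⟨z, hz⟩ := h.mlt (L a) (L_mem a) b
    simp only [L_apply] at hz
    rw [← E.mul, ← E.mul, hz, E.kz, E.mul, E.mul]
  · obtain ⟨a, rfl⟩ := E.surj x
    obtain ⟨b, rfl⟩ := E.surj y
    obtain ⟨z, hz⟩ := h.mlt (R b) (R_mem b) a
    simp only [R_apply] at hz
    rw [← E.mul, ← E.mul, hz, E.kz, E.mul, E.mul]

theorem z2_of_cen {u : Q} (h : IsCen (E.π u)) : IsZ2 u := fun φ => by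
  apply E.ker
  rw [bar_spec]
  exact inn_zval (E.bar φ) ⟨E.π u, h⟩

theorem inK_of_bar {φ : Inn Q} (h : ∀ x, (E.bar φ).1 x = x) : InK φ.1 := fun x => by
  apply E.ker
  rw [bar_spec, h]

end a

end CExt

section d
variable {Q P : Type} [Lp Q] [Lp P] [Aim Q] [Aim P] (E : CExt Q P)

/-- the group `D` -/
@[ext] structure Dt : Type where
  val : Q
  d1 : IsD1 val
  pz2 : IsZ2 (E.π val)
  pd1 : IsD1 (E.π val)

variable {E}

/-- image in `A P` -/
def Dt.toA (w : Dt E) : A P := ⟨E.π w.val, w.pz2, w.pd1⟩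

theorem Dt.toA_val (w : Dt E) : w.toA.1 = E.π w.1 := rfl

theorem Dt.inK (w v : Dt E) : InK (Li w.1 v.1).1 := by
  apply E.inK_of_bar
  intro x
  rw [E.bar_Li]
  apply lcan (a := E.π w.1 * E.π v.1)
  rw [Li_spec, uwx w.pz2 v.pd1]

instance : Mul (Dt E) := ⟨fun w v => ⟨w.1 * v.1, w.d1.mul v.d1, by
  rw [E.mul]; exact (w.toA * v.toA).z2, by
  rw [E.mul]; exact (w.toA * v.toA).d1⟩⟩
instance : One (Dt E) := ⟨⟨1, IsD1.one, by rw [E.one]; exact IsZ2.one, by rw [E.one]; exact IsD1.one⟩⟩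

theorem Dt.val_mul (w v : Dt E) : (w * v).1 = w.1 * v.1 := rfl
theorem Dt.val_one : (1 : Dt E).1 = 1 := rfl

theorem Dt.assoc (w v u : Dt E) : (w * v) * u = w * (v * u) := by
  apply Dt.ext
  show (w.1 * v.1) * u.1 = w.1 * (v.1 * u.1)
  rw [← Li_spec, K_fix (w.inK v) u.d1]

instance : Inv (Dt E) := ⟨fun w => ⟨w.1 \ 1, w.d1.ld IsD1.one, by
  rw [E.ld, E.one]; exact (w.toA⁻¹).z2, by
  rw [E.ld, E.one]; exact (w.toA⁻¹).d1⟩⟩

theorem Dt.val_inv (w : Dt E) : (w⁻¹).1 = w.1 \ 1 := rfl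

theorem Dt.mul_inv' (w : Dt E) : w * w⁻¹ = 1 := by
  apply Dt.ext
  show w.1 * (w.1 \ 1) = 1
  simp

theorem Dt.one_mul' (w : Dt E) : 1 * w = w := Dt.ext (Lp.omul w.1)
theorem Dt.mul_one' (w : Dt E) : w * 1 = w := Dt.ext (Lp.mulo w.1)

theorem Dt.inv_mul' (w : Dt E) : w⁻¹ * w = 1 := by
  calc w⁻¹ * w = (w⁻¹ * w) * (w⁻¹ * w⁻¹⁻¹) := by rw [Dt.mul_inv', Dt.mul_one']
    _ = w⁻¹ * ((w * w⁻¹) * w⁻¹⁻¹) := by simp only [Dt.assoc]
    _ = 1 := by rw [Dt.mul_inv', Dt.one_mul', Dt.mul_inv']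

instance : Group (Dt E) where
  mul_assoc := Dt.assoc
  one_mul := Dt.one_mul'
  mul_one := Dt.mul_one'
  inv_mul_cancel := Dt.inv_mul'

/-- reduction modulo the center is a homomorphism -/
def toAh : Dt E →* A P where
  toFun := Dt.toA
  map_one' := A.ext E.one
  map_mul' w v := A.ext (E.mul w.1 v.1)

theorem toAh_val (w : Dt E) : (toAh w).1 = E.π w.1 := rfl

/-- inclusion of `A Q` in `D` -/
def inc : A Q →* Dt E where
  toFun u := ⟨u.1, u.3, fun φ => ⟨1, by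
      have h := E.cen_of_z2 u.2
      have : φ.1 (E.π u.1) = E.π u.1 := inn_zval φ ⟨_, h⟩
      rw [this, one_smul]⟩, by
      have h := E.cen_of_z2 u.2
      intro k hk _
      exact (Lz_comm ⟨_, h⟩ hk).symm⟩
  map_one' := rfl
  map_mul' _ _ := rfl

theorem inc_val (u : A Q) : (inc u : Dt E).1 = u.1 := rfl

theorem inc_inj {u v : A Q} (h : (inc u : Dt E) = inc v) : u = v := A.ext (congrArg Dt.val h)

theorem inc_comm (u : A Q) (w : Dt E) : inc u * w = w * inc u := Dt.ext (uw_comm u.2 w.2)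

/-- displacement in the quotient part: `φ w = G1 φ w • w` -/
def G1 (φ : Inn Q) (w : Dt E) : A Q := ⟨φ.1 w.1 / w.1, by
  apply E.z2_of_cen
  rw [E.rd, E.bar_spec]
  obtain ⟨z, hz⟩ := w.pz2 (E.bar φ)
  rw [hz, zrd, rd_self, Zc.smul_one']
  exact z.2, disp_D1 φ w.1⟩

/-- action of inner mappings on `D` -/
def act (φ : Inn Q) (w : Dt E) : Dt E := inc (G1 φ w) * w

theorem act_val (φ : Inn Q) (w : Dt E) : (act φ w).1 = φ.1 w.1 := Lp.rd_mul _ _

theorem G1_spec (φ : Inn Q) (w : Dt E) : φ.1 w.1 = G1 φ w • w.1 := (act_val φ w).symm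

theorem G1_uniq {φ : Inn Q} {w : Dt E} {u : A Q} (h : φ.1 w.1 = u • w.1) : G1 φ w = u :=
  A_cancel (x := w.1) (by rw [← G1_spec, h])

theorem G1_inc (φ : Inn Q) (u : A Q) : G1 φ (inc u : Dt E) = ofZ (G φ u) := by
  apply G1_uniq
  rw [inc_val, G_spec, ofZ_smul]

theorem toA_G1 (φ : Inn Q) (w : Dt E) :
    toAh (inc (G1 φ w) : Dt E) = ofZ (G (E.bar φ) (toAh w)) := by
  apply A.ext
  rw [toAh_val, inc_val, ofZ_val]
  show E.π (φ.1 w.1 / w.1) = _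
  rw [E.rd, E.bar_spec, ← toAh_val, G_spec, zrd, rd_self, Zc.smul_one']

theorem exists_z {w v : Dt E} (h : toAh w = toAh v) : ∃ z : Zc Q, w = inc (ofZ z) * v := by
  obtain ⟨z, hz⟩ := E.ker w.1 v.1 (congrArg A.val h)
  exact ⟨z, Dt.ext hz⟩

theorem G1_congr (φ : Inn Q) {w v : Dt E} (h : toAh w = toAh v) : G1 φ w = G1 φ v := by
  obtain ⟨z, rfl⟩ := exists_z h
  apply G1_uniq
  show φ.1 (z • v.1) = G1 φ v • z • v.1
  rw [inn_z, G1_spec, A_z_comm]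

theorem G_congr (φ : Inn Q) {u v : A Q}
    (h : toAh (inc u : Dt E) = toAh (inc v : Dt E)) : G φ u = G φ v := by
  obtain ⟨z, hz⟩ := exists_z h
  have : u = ofZ z * v := inc_inj (E := E) (by rw [hz, map_mul])
  rw [this, G_zmul]

/-- sufficient condition for multiplicativity -/
theorem G1_mul (φ : Inn Q) {w v : Dt E} (h : MultP (E.bar φ) (toAh w)) :
    G1 φ (w * v) = G1 φ w * G1 φ v := by
  have h1 : φ.1 (w.1 * v.1) = φ.1 w.1 * φ.1 v.1 := by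
    refine lemmaM (fun x => ?_) v.2
    apply E.ker
    rw [E.bar_spec, E.mul, E.mul, E.bar_spec, E.bar_spec]
    exact h.spec (E.π x)
  have h2 : act φ (w * v) = act φ w * act φ v := by
    apply Dt.ext
    rw [Dt.val_mul, act_val, act_val, act_val]
    exact h1
  simp only [act] at h2
  apply inc_inj (E := E)
  have h3 : inc (G1 φ w) * w * (inc (G1 φ v) * v) = inc (G1 φ w * G1 φ v) * (w * v) := by
    rw [map_mul, mul_assoc, ← mul_assoc w, ← inc_comm, mul_assoc, mul_assoc]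
  rw [h3] at h2
  exact mul_right_cancel h2

theorem G1_mul_inc (φ : Inn Q) (w : Dt E) (u : A Q) :
    G1 φ (w * inc u) = G1 φ w * ofZ (G φ u) := by
  rw [← inc_comm]
  apply G1_uniq
  show φ.1 (u.1 * w.1) = _
  rw [u.2.map_mul w.2, G_spec, G1_spec, zmul]
  show G φ u • (u • G1 φ w • w.1) = (G1 φ w * ofZ (G φ u)) • (u • w.1)
  rw [smul_smul, smul_smul, zA_smul]
  congr 1
  simp only [mul_assoc, mul_comm, mul_left_comm]

theorem G1_inc_mul (φ : Inn Q) (w : Dt E) (u : A Q) :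
    G1 φ (inc u * w) = ofZ (G φ u) * G1 φ w := by
  rw [inc_comm, G1_mul_inc, mul_comm]

@[simp] theorem G1_one (φ : Inn Q) : G1 φ (1 : Dt E) = 1 := by
  apply G1_uniq
  simp [Dt.val_one]

theorem G1_inv (φ : Inn Q) {w : Dt E} (h : MultP (E.bar φ) (toAh w)) :
    G1 φ w⁻¹ = (G1 φ w)⁻¹ := by
  rw [eq_inv_iff_mul_eq_one, mul_comm, ← G1_mul φ h, mul_inv_cancel, G1_one]

theorem G1_mul_left (φ ψ : Inn Q) (w : Dt E) :
    G1 (φ * ψ) w = G1 φ w * G1 ψ w * ofZ (G φ (G1 ψ w)) := by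
  apply G1_uniq
  show φ.1 (ψ.1 w.1) = _
  rw [G1_spec ψ]
  show φ.1 ((G1 ψ w).1 * w.1) = _
  rw [(G1 ψ w).2.map_mul w.2, G_spec, G1_spec φ, zmul]
  show G φ (G1 ψ w) • ((G1 ψ w) • G1 φ w • w.1) = _
  rw [smul_smul, zA_smul]
  congr 1
  simp only [mul_assoc, mul_comm, mul_left_comm]

theorem G_G1_symm (φ ψ : Inn Q) (w : Dt E) : G φ (G1 ψ w) = G ψ (G1 φ w) := by
  have h1 := G1_mul_left φ ψ w
  have h2 := G1_mul_left ψ φ w
  rw [mul_comm ψ φ, h1, mul_comm (G1 ψ w)] at h2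
  have h3 := mul_left_cancel h2
  have h4 := congrArg A.val h3
  exact Zc.ext h4

end d

end Pool.Agent.helper8.AimL
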