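import Pool.Agent.helper8.Aim.Abel

set_option autoImplicit false
set_option linter.unusedSectionVars false

namespace Pool.Agent.helper8.AimL

/-! ### alternating additive functions -/

structure Alt4 {X B : Type} [Mul X] [CommGroup B] (f : X → X → X → X → B) : Prop where
  s1 : ∀ a b c d, f b a c d = (f a b c d)⁻¹
  s2 : ∀ a b c d, f a c b d = (f a b c d)⁻¹
  s3 : ∀ a b c d, f a b d c = (f a b c d)⁻¹
  alt12 : ∀ a c d, f a a c d = 1
  add1 : ∀ a a' b c d, f (a * a') b c d = f a b c d * f a' b c d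

namespace Alt4
variable {X B : Type} [Mul X] [CommGroup B] {f : X → X → X → X → B} (h : Alt4 f)
include h

theorem alt23 (a b c : X) : f a b b c = 1 := by
  rw [h.s1 b a b c, h.s2 b b a c, h.alt12]; simp
theorem alt34 (a b c : X) : f a b c c = 1 := by
  rw [h.s2 a c b c, h.s3 a c c b, h.alt23]; simp
theorem alt13 (a b c : X) : f a b a c = 1 := by
  rw [h.s1 b a a c, h.alt23]; simp
theorem alt24 (a b c : X) : f a b c b = 1 := by
  rw [h.s2 a c b b, h.alt34]; simp
theorem alt14 (a b c : X) : f a b c a = 1 := by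
  rw [h.s1 b a c a, h.alt24]; simp
theorem add2 (a b b' c d : X) : f a (b * b') c d = f a b c d * f a b' c d := by
  rw [h.s1 (b * b') a c d, h.add1, h.s1 a b, h.s1 a b']; simp [mul_comm]
theorem add3 (a b c c' d : X) : f a b (c * c') d = f a b c d * f a b c' d := by
  rw [h.s2 a (c * c') b d, h.add2, h.s2 a b c, h.s2 a b c']; simp [mul_comm]
theorem add4 (a b c d d' : X) : f a b c (d * d') = f a b c d * f a b c d' := by
  rw [h.s3 a b (d * d') c, h.add3, h.s3 a b c d, h.s3 a b c d']; simp [mul_comm]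
end Alt4

structure Alt5 {X B : Type} [Mul X] [CommGroup B] (f : X → X → X → X → X → B) : Prop where
  s1 : ∀ a b c d e, f b a c d e = (f a b c d e)⁻¹
  s2 : ∀ a b c d e, f a c b d e = (f a b c d e)⁻¹
  s3 : ∀ a b c d e, f a b d c e = (f a b c d e)⁻¹
  s4 : ∀ a b c d e, f a b c e d = (f a b c d e)⁻¹
  alt12 : ∀ a c d e, f a a c d e = 1
  add1 : ∀ a a' b c d e, f (a * a') b c d e = f a b c d e * f a' b c d e
  three : ∀ a b c d e, f a b c d e ^ 3 = 1

namespace Alt5
variable {X B : Type} [Mul X] [CommGroup B] {f : X → X → X → X → X → B} (h : Alt5 f)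
include h

theorem alt23 (a b c d : X) : f a b b c d = 1 := by
  rw [h.s1 b a b c, h.s2 b b a c, h.alt12]; simp
theorem alt34 (a b c d : X) : f a b c c d = 1 := by
  rw [h.s2 a c b c, h.s3 a c c b, h.alt23]; simp
theorem alt45 (a b c d : X) : f a b c d d = 1 := by
  rw [h.s3 a b d c d, h.s4 a b d d c, h.alt34]; simp
theorem alt13 (a b c d : X) : f a b a c d = 1 := by
  rw [h.s1 b a a c, h.alt23]; simp
theorem alt24 (a b c d : X) : f a b c b d = 1 := by
  rw [h.s2 a c b b, h.alt34]; simp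
theorem alt35 (a b c d : X) : f a b c d c = 1 := by
  rw [h.s3 a b d c c, h.alt45]; simp
theorem alt14 (a b c d : X) : f a b c a d = 1 := by
  rw [h.s1 b a c a, h.alt24]; simp
theorem alt25 (a b c d : X) : f a b c d b = 1 := by
  rw [h.s2 a c b d b, h.alt35]; simp
theorem alt15 (a b c d : X) : f a b c d a = 1 := by
  rw [h.s1 b a c d a, h.alt25]; simp
theorem add2 (a b b' c d e : X) : f a (b * b') c d e = f a b c d e * f a b' c d e := by
  rw [h.s1 (b * b') a c d, h.add1, h.s1 a b, h.s1 a b']; simp [mul_comm]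
theorem add3 (a b c c' d e : X) : f a b (c * c') d e = f a b c d e * f a b c' d e := by
  rw [h.s2 a (c * c') b d, h.add2, h.s2 a b c, h.s2 a b c']; simp [mul_comm]
theorem add4 (a b c d d' e : X) : f a b c (d * d') e = f a b c d e * f a b c d' e := by
  rw [h.s3 a b (d * d') c, h.add3, h.s3 a b c d, h.s3 a b c d']; simp [mul_comm]
theorem add5 (a b c d e e' : X) : f a b c d (e * e') = f a b c d e * f a b c d e' := by
  rw [h.s4 a b c (e * e') d, h.add4, h.s4 a b c d e, h.s4 a b c d e']; simp [mul_comm]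
end Alt5

section cl3

variable (P : Type) [Lp P] [Aim P]

/-- class at most three -/
class Cl3 : Prop where
  disp : ∀ (φ : Inn P) (p : P), IsZ2 (φ.1 p / p)

variable {P} [Cl3 P]

/-- displacement `φ p = dA φ p • p` -/
def dA (φ : Inn P) (p : P) : A P := ⟨φ.1 p / p, Cl3.disp φ p, disp_D1 φ p⟩

theorem dA_spec (φ : Inn P) (p : P) : φ.1 p = dA φ p • p := (Lp.rd_mul p (φ.1 p)).symm

theorem dA_uniq {φ : Inn P} {p : P} {v : A P} (h : φ.1 p = v • p) : dA φ p = v :=
  A_cancel (x := p) (by rw [← dA_spec, h])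

/-- `Γ(φ,ψ;p)` -/
noncomputable def Gam (φ ψ : Inn P) (p : P) : Zc P := G φ (dA ψ p)

theorem Gam_symm (φ ψ : Inn P) (p : P) : Gam φ ψ p = Gam ψ φ p := by
  have h := exch φ ψ p
  change (dA φ p).1 \ φ.1 (dA ψ p)⁻¹.1 = (dA ψ p).1 \ ψ.1 (dA φ p)⁻¹.1 at h
  rw [G_spec, G_spec, ldz, ldz, A_ld, A_ld, ← A.smul_one' (dA ψ p)⁻¹, ← A.smul_one' (dA φ p)⁻¹,
    smul_smul, smul_smul, mul_comm (dA ψ p)⁻¹] at h
  have := z_cancel h
  simpa [Gam] using this

/-- `ψ` conjugated by left translation by `p` -/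
def sg (ψ : Inn P) (p : P) : Inn P :=
  ⟨(L p)⁻¹ * (L (dA ψ p).1)⁻¹ * ψ.1 * L p,
    (Mlt P).mul_mem ((Mlt P).mul_mem ((Mlt P).mul_mem ((Mlt P).inv_mem (L_mem _))
      ((Mlt P).inv_mem (L_mem _))) ψ.2.1) (L_mem _), by
    simp only [Equiv.Perm.mul_apply, L_apply, Lp.mulo, L_inv_apply]
    rw [dA_spec, A_ld]; simp⟩

theorem sg_spec (ψ : Inn P) (p q : P) : dA ψ p • (p * (sg ψ p).1 q) = ψ.1 (p * q) := by
  show (dA ψ p).1 * (p * (p \ ((dA ψ p).1 \ ψ.1 (p * q)))) = _
  simp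

theorem G_sg (ψ : Inn P) (p : P) (v : A P) : G (sg ψ p) v = G ψ v * md ψ v p := by
  have h := sg_spec ψ p v.1
  rw [G_spec, mulz, mulAval, inn_z, md_spec, dA_spec ψ p] at h
  simp only [A_z_comm, smul_smul] at h
  rw [mul_comm v] at h
  have := z_cancel h
  rw [mul_comm] at this
  have := mul_left_cancel this
  rw [this, mul_comm]

theorem G_dA_sg (φ ψ : Inn P) (p q : P) :
    G φ (dA (sg ψ p) q) = (Gam φ ψ p)⁻¹ * Gam φ ψ (p * q) := by
  have h := sg_spec ψ p q
  rw [dA_spec (sg ψ p) q, mulA, dA_spec ψ (p * q), A_z_comm, zA_smul, smul_smul] at h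
  have h2 := A_cancel h
  have h3 := congrArg (G φ) h2
  rw [mul_assoc, G_zmul, G_mul_right] at h3
  show _ = (G φ (dA ψ p))⁻¹ * G φ (dA ψ (p * q))
  rw [← h3]; simp

/-- multiplicativity defect formula -/
theorem md_dA (φ ψ : Inn P) (p q : P) :
    md ψ (dA φ q) p = Gam φ ψ (p * q) * (Gam φ ψ p)⁻¹ * (Gam φ ψ q)⁻¹ := by
  have h := Gam_symm (sg ψ p) φ q
  have h1 : Gam (sg ψ p) φ q = Gam φ ψ q * md ψ (dA φ q) p := by
    rw [Gam, G_sg, Gam_symm φ ψ q]; rfl
  have h2 : Gam φ (sg ψ p) q = (Gam φ ψ p)⁻¹ * Gam φ ψ (p * q) := G_dA_sg φ ψ p q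
  rw [h1, h2] at h
  rw [eq_mul_inv_iff_mul_eq, mul_comm, h, mul_comm]

end cl3

section words

variable {P : Type} [Lp P] [Aim P] [Cl3 P]

def tau (v z : P) : A P := dA (T v) z
def lam (x y z : P) : A P := dA (Li x y) z
/-- `R_{y,z} x = rho y z x • x` -/
def rho (y z x : P) : A P := dA (Ri y z) x
/-- `Ξ_{x,z} y = mu x z y • y` -/
def mu (x z y : P) : A P := dA (Xi x z) y

noncomputable def WP (v x y z : P) : Zc P := G (T v) (lam x y z)
noncomputable def FP (a b c d e : P) : Zc P := G (Li a b) (lam c d e)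
noncomputable def tP (x y z : P) : Zc P := G (T x) (tau y z)

/-- associator `x (y z) = aA x y z • (x y) z` -/
noncomputable def aA (x y z : P) : A P :=
  ofZ (G (T (x * y)) (lam x y z) * G (Xi (x * y) z) (lam x y z) * G (Ri (x * y) z) (lam x y z))
    * lam x y z

theorem aA_spec (x y z : P) : x * (y * z) = aA x y z • ((x * y) * z) := by
  rw [aA, ← zA_smul, ← mulA]
  have := Li_spec x y z
  rw [dA_spec] at this
  exact this.symm

theorem aA_uniq {x y z : P} {v : A P} (h : x * (y * z) = v • ((x * y) * z)) : aA x y z = v :=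
  A_cancel (by rw [← aA_spec, h])

variable (P) in
/-- the inductive package -/
structure PP : Prop where
  mu_lam : ∀ x y z : P, ∃ c, mu x z y = ofZ c * lam x y z
  rho_lam : ∀ x y z : P, ∃ c, rho y z x = ofZ c * (lam x y z)⁻¹
  hW : Alt4 (WP (P := P))
  W6 : ∀ v x y z : P, WP v x y z ^ 6 = 1
  hF : Alt5 (FP (P := P))
  t_s1 : ∀ x y z : P, tP x y z = tP y x z
  t_s2 : ∀ x y z : P, tP x z y = tP x y z
  t_two : ∀ x y z : P, tP x y z ^ 2 = 1
  t_add : ∀ x x' y z : P, tP (x * x') y z = tP x y z * tP x' y z * (WP x x' y z) ^ 3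

end words

end Pool.Agent.helper8.AimL
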