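import Pool.Agent.helper8.Aim.Forms

set_option autoImplicit false
set_option linter.unusedSectionVars false

namespace Pool.Agent.helper8.AimL

section plem

variable {P : Type} [Lp P] [Aim P] [Cl3 P]

theorem gL_tau (x y v p : P) : G (Li x y) (tau v p) = WP v x y p := Gam_symm (Li x y) (T v) p

variable (H : PP P)
include H

theorem gR_tau (x y v p : P) : G (Ri x y) (tau v p) = (WP v p x y)⁻¹ := by
  have h1 : G (Ri x y) (tau v p) = G (T v) (rho x y p) := Gam_symm (Ri x y) (T v) p
  obtain ⟨c, hc⟩ := H.rho_lam p x y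
  rw [h1, hc, G_zmul, G_inv_right]; rfl

theorem gX_tau (x y v p : P) : G (Xi x y) (tau v p) = WP v x p y := by
  have h1 : G (Xi x y) (tau v p) = G (T v) (mu x y p) := Gam_symm (Xi x y) (T v) p
  obtain ⟨c, hc⟩ := H.mu_lam x p y
  rw [h1, hc, G_zmul]; rfl

theorem gR_lam (x y a b p : P) : G (Ri x y) (lam a b p) = (FP a b p x y)⁻¹ := by
  have h1 : G (Ri x y) (lam a b p) = G (Li a b) (rho x y p) := Gam_symm (Ri x y) (Li a b) p
  obtain ⟨c, hc⟩ := H.rho_lam p x y
  rw [h1, hc, G_zmul, G_inv_right]; rfl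

theorem gX_lam (x y a b p : P) : G (Xi x y) (lam a b p) = FP a b x p y := by
  have h1 : G (Xi x y) (lam a b p) = G (Li a b) (mu x y p) := Gam_symm (Xi x y) (Li a b) p
  obtain ⟨c, hc⟩ := H.mu_lam x p y
  rw [h1, hc, G_zmul]; rfl

theorem tauMul (v p x y : P) :
    (tau v p • x) * y = (WP v p x y)⁻¹ • tau v p • (x * y) := by
  rw [Amul, gR_tau H]

theorem mulTau (v p x y : P) :
    x * (tau v p • y) = (tP x v p * WP v x p y * (WP v p x y)⁻¹) • tau v p • (x * y) := by
  rw [mulA, gR_tau H, gX_tau H]; rfl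

theorem lamMul (a b c x y : P) :
    (lam a b c • x) * y = (FP a b c x y)⁻¹ • lam a b c • (x * y) := by
  rw [Amul, gR_lam H]

theorem mulLam (a b c x y : P) :
    x * (lam a b c • y) = (WP x a b c * FP a b x c y * (FP a b c x y)⁻¹) • lam a b c • (x * y) := by
  rw [mulA, gR_lam H, gX_lam H]; rfl

theorem mul_swap (v z : P) : v * z = tau v z • (z * v) := by
  have := T_spec v z
  rw [dA_spec] at this
  change (tau v z • z) * v = v * z at this
  rw [tauMul H, H.hW.alt23] at this
  simpa using this.symm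

theorem PL1 (v z : P) : tau v z * tau z v = 1 := by
  have h1 := mul_swap H v z
  have h2 := mul_swap H z v
  rw [h2, smul_smul] at h1
  exact (A_cancel (x := v * z) (by rw [← h1, one_smul]))

theorem tau_inv (v z : P) : (tau v z)⁻¹ = tau z v := by
  rw [inv_eq_iff_mul_eq_one]; exact PL1 H v z

theorem aA_lam (x y z : P) : aA x y z = lam x y z := by
  rw [aA]
  have h1 : G (T (x * y)) (lam x y z) = 1 := by
    show WP (x * y) x y z = 1
    rw [H.hW.add1, H.hW.alt12, H.hW.alt13]; simp
  rw [h1, gX_lam H, gR_lam H, H.hF.alt45, H.hF.alt35]; simp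

theorem assoc_lam (x y z : P) : x * (y * z) = lam x y z • ((x * y) * z) := by
  rw [← aA_lam H]; exact aA_spec x y z

theorem mu_eq (x y z : P) : mu x z y = lam x y z := by
  obtain ⟨c, hc⟩ := H.mu_lam x y z
  have h := Xi_spec x z y
  rw [dA_spec] at h
  change (x * (mu x z y • y)) * z = x * (y * z) at h
  have g1 : ∀ φ : Inn P, G φ (mu x z y) = G φ (lam x y z) := fun φ => by rw [hc, G_zmul]
  rw [mulA, g1, g1, g1, gX_lam H, gR_lam H, zmul, Amul, g1, gR_lam H, assoc_lam H,
    H.hF.alt35, H.hF.alt13] at h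
  have h1 : G (T x) (lam x y z) = 1 := H.hW.alt12 x y z
  have h2 : FP x y z x y = 1 := H.hF.alt14 _ _ _ _
  rw [h1, h2] at h
  simp only [inv_one, one_smul, mul_one] at h
  exact A_cancel h

theorem rho_eq (x y z : P) : rho y z x = (lam x y z)⁻¹ := by
  obtain ⟨c, hc⟩ := H.rho_lam x y z
  have h := Ri_spec y z x
  rw [dA_spec] at h
  change (rho y z x • x) * (y * z) = (x * y) * z at h
  have g1 : ∀ φ : Inn P, G φ (rho y z x) = (G φ (lam x y z))⁻¹ := fun φ => by
    rw [hc, G_zmul, G_inv_right]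
  rw [Amul, g1, gR_lam H, H.hF.alt14, assoc_lam H] at h
  simp only [inv_one, one_smul, smul_smul] at h
  rw [eq_inv_iff_mul_eq_one]
  exact A_cancel (x := (x * y) * z) (by rw [h, one_smul])

theorem pentagon (x y z r : P) :
    lam x y (z * r) * lam (x * y) z r
      = ofZ (WP x y z r) * lam y z r * lam x (y * z) r * lam x y z := by
  have e1 : x * (y * (z * r)) = (lam x y (z * r) * lam (x * y) z r) • (((x * y) * z) * r) := by
    rw [assoc_lam H x y (z * r), assoc_lam H (x * y) z r, smul_smul]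
  have e2 : x * (y * (z * r))
      = (ofZ (WP x y z r) * lam y z r * lam x (y * z) r * lam x y z) • (((x * y) * z) * r) := by
    have f1 : FP y z x r (y * z * r) = 1 := by
      rw [H.hF.add5, H.hF.add5, H.hF.alt15, H.hF.alt25, H.hF.alt45]; simp
    have f2 : FP y z r x (y * z * r) = 1 := by
      rw [H.hF.add5, H.hF.add5, H.hF.alt15, H.hF.alt25, H.hF.alt35]; simp
    have f3 : FP x y z (x * y * z) r = 1 := by
      rw [H.hF.add4, H.hF.add4, H.hF.alt14, H.hF.alt24, H.hF.alt34]; simp
    rw [assoc_lam H y z r, mulLam H, f1, f2, assoc_lam H x (y * z) r, assoc_lam H x y z,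
      lamMul H, f3]
    simp only [inv_one, one_smul, mul_one]
    rw [smul_smul, smul_smul, zA_smul]
    simp only [mul_assoc]
  exact A_cancel (e1.symm.trans e2)

theorem lam_tau (v p q y z : P) : lam (tau v p • q) y z = ofZ (WP v p y z) * lam q y z := by
  have h := assoc_lam H (tau v p • q) y z
  rw [tauMul H, tauMul H, zmul, tauMul H, assoc_lam H q y z] at h
  simp only [A_z_comm, smul_smul] at h
  rw [zA_smul, zA_smul] at h
  have h2 := A_cancel h
  have h3 : WP v p q (y * z) * WP v p y z = WP v p q y * WP v p (q * y) z := by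
    rw [H.hW.add4, H.hW.add3]
    rw [mul_assoc]
  have h4 : ofZ ((WP v p q y)⁻¹ * (WP v p (q * y) z)⁻¹) = ofZ (WP v p q (y * z))⁻¹ * ofZ (WP v p y z)⁻¹ := by
    rw [← map_mul, ← mul_inv, ← mul_inv, h3]
  rw [h4] at h2
  have h5 : (ofZ (WP v p q (y * z))⁻¹ * tau v p) * lam q y z
      = (ofZ (WP v p q (y * z))⁻¹ * tau v p) * (ofZ (WP v p y z)⁻¹ * lam (tau v p • q) y z) := by
    rw [← mul_assoc] at h2
    rw [h2]
    simp only [mul_assoc, mul_comm, mul_left_comm]
  have h6 := mul_left_cancel h5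
  rw [h6, ← mul_assoc, ← map_mul]; simp

theorem t_add3 (x y z z' : P) : tP x y (z * z') = tP x y z * tP x y z' * (WP z z' x y) ^ 3 := by
  have h : ∀ a b c : P, tP a b c = tP c a b := fun a b c => by
    rw [← H.t_s2 a b c, H.t_s1 a c b]
  rw [h x y (z * z'), H.t_add, ← h x y z, ← h x y z']

theorem t_cyc (a b c : P) : tP a b c = tP c a b := by
  rw [← H.t_s2 a b c, H.t_s1 a c b]

omit H in
theorem MultP.of_add {φ ψ : Inn P} {q : P}
    (h : ∀ a b, Gam φ ψ (a * b) = Gam φ ψ a * Gam φ ψ b) : MultP ψ (dA φ q) := fun p => by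
  rw [md_dA, h]
  rw [mul_comm (Gam φ ψ p)]; simp

theorem mult_L_tau (x y v p : P) : MultP (Li x y) (tau v p) := by
  refine MultP.of_add (φ := T v) fun a b => ?_
  exact H.hW.add4 v x y a b

theorem mult_R_tau (x y v p : P) : MultP (Ri x y) (tau v p) := by
  refine MultP.of_add (φ := T v) fun a b => ?_
  have h : ∀ a, Gam (T v) (Ri x y) a = (WP v a x y)⁻¹ := fun a => by
    rw [Gam_symm]; exact gR_tau H x y v a
  rw [h, h, h, H.hW.add2, mul_inv]

theorem mult_X_tau (x y v p : P) : MultP (Xi x y) (tau v p) := by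
  refine MultP.of_add (φ := T v) fun a b => ?_
  have h : ∀ a, Gam (T v) (Xi x y) a = WP v x a y := fun a => by
    rw [Gam_symm]; exact gX_tau H x y v a
  rw [h, h, h, H.hW.add3]

theorem mult_T_lam (v a b c : P) : MultP (T v) (lam a b c) := by
  refine MultP.of_add (φ := Li a b) fun x y => ?_
  rw [Gam_symm, Gam_symm _ _ x, Gam_symm _ _ y]
  exact H.hW.add4 v a b x y

theorem mult_L_lam (x y a b c : P) : MultP (Li x y) (lam a b c) := by
  refine MultP.of_add (φ := Li a b) fun p q => ?_
  exact H.hF.add5 a b x y p q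

theorem mult_R_lam (x y a b c : P) : MultP (Ri x y) (lam a b c) := by
  refine MultP.of_add (φ := Li a b) fun p q => ?_
  have h : ∀ p, Gam (Li a b) (Ri x y) p = (FP a b p x y)⁻¹ := fun p => by
    rw [Gam_symm]; exact gR_lam H x y a b p
  rw [h, h, h, H.hF.add3, mul_inv]

theorem mult_X_lam (x y a b c : P) : MultP (Xi x y) (lam a b c) := by
  refine MultP.of_add (φ := Li a b) fun p q => ?_
  have h : ∀ p, Gam (Li a b) (Xi x y) p = FP a b x p y := fun p => by
    rw [Gam_symm]; exact gX_lam H x y a b p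
  rw [h, h, h, H.hF.add4]

/-- value of `tau y` at a multiple -/
theorem tau_swap (y x x' : P) :
    tau y (x' * x) = ofZ (tP y x' x) * tau y (x * x') := by
  have h0 := mul_swap H x' x
  have h1 : md (T y) (tau x' x) (x * x') = 1 := by
    have e := md_dA (T x') (T y) (x * x') x
    have g : ∀ p, Gam (T x') (T y) p = tP x' y p := fun _ => rfl
    rw [g, g, g, t_add3 H, H.hW.add1, H.hW.alt13, H.hW.alt12 ] at e
    change md (T y) (tau x' x) (x * x') = _ at e
    rw [e]
    simp
  apply dA_uniq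
  rw [h0, md_spec, h1, one_smul, dA_spec (T y) (x * x'), mul_smul, ofZ_smul]
  change tP y x' x • tau x' x • tau y (x * x') • (x * x') = _
  rw [smul_smul (tau x' x), mul_comm, mul_smul]

end plem

end Pool.Agent.helper8.AimL
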