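import Pool.Agent.helper8.Aim.Ext
import Pool.Agent.helper8.Aim.Alg

set_option autoImplicit false
set_option linter.unusedSectionVars false

namespace Pool.Agent.helper8.AimL

section step
variable {Q P : Type} [Lp Q] [Lp P] [Aim Q] [Aim P] [Cl3 P] (E : CExt Q P)

/-- displacements as elements of `D` -/
def dD (φ : Inn Q) (p : Q) : Dt E := ⟨φ.1 p / p, disp_D1 φ p, by
  rw [E.rd, E.bar_spec]; exact Cl3.disp _ _, by
  rw [E.rd, E.bar_spec]; exact disp_D1 _ _⟩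

theorem dD_val (φ : Inn Q) (p : Q) : (dD E φ p).1 = φ.1 p / p := rfl

theorem toAh_dD (φ : Inn Q) (p : Q) : toAh (dD E φ p) = dA (E.bar φ) (E.π p) := by
  apply A.ext
  rw [toAh_val, dD_val, E.rd, E.bar_spec]; rfl

variable {E}

theorem Dt_ld (w v : Dt E) : w.1 \ v.1 = (w⁻¹ * v).1 := ld_eq (by
  rw [← Dt.val_mul, ← mul_assoc, mul_inv_cancel, one_mul])

theorem Dt_rd (w v : Dt E) : v.1 / w.1 = (v * w⁻¹).1 := rd_eq (by
  rw [← Dt.val_mul, mul_assoc, inv_mul_cancel, mul_one])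

/-- `T_p` fixes displacements at `p` -/
theorem G1_T_disp (ψ : Inn Q) (p : Q) : G1 (T p) (dD E ψ p) = 1 := by
  have h := comm_fix (m := (L (ψ.1 p / p))⁻¹ * ψ.1) (n := (T p).1)
    ((Mlt Q).mul_mem ((Mlt Q).inv_mem (L_mem _)) ψ.2.1) (T p).2.1 p
    (by simp only [Equiv.Perm.mul_apply, L_inv_apply]; exact ld_eq (Lp.rd_mul _ _)) (T_self p)
  have hc : ψ.1 * (T p).1 = (T p).1 * ψ.1 := Aim.comm _ ψ.2.1 _ (T p).2.1 ψ.2.2 (T p).2.2
  have h2 : (T p).1 * L (ψ.1 p / p) = L (ψ.1 p / p) * (T p).1 := by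
    have e : (L (ψ.1 p / p))⁻¹ * (T p).1 * ψ.1 = (T p).1 * (L (ψ.1 p / p))⁻¹ * ψ.1 := by
      rw [mul_assoc, ← hc, ← mul_assoc, h, mul_assoc]
    have e2 := mul_right_cancel e
    calc (T p).1 * L (ψ.1 p / p)
        = L (ψ.1 p / p) * ((L (ψ.1 p / p))⁻¹ * (T p).1) * L (ψ.1 p / p) := by group
      _ = L (ψ.1 p / p) * (T p).1 := by rw [e2]; group
  have h3 := congrArg (fun m : Equiv.Perm Q => m 1) h2
  simp only [Equiv.Perm.mul_apply, L_apply, Inn.map_one, Lp.mulo] at h3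
  apply G1_uniq
  rw [dD_val, h3, one_smul]

/-- commutator in `D` -/
def kap (w v : Dt E) : Dt E := w * v * w⁻¹ * v⁻¹

/-- the commutator formula -/
theorem comm_formula (φ : Inn Q) (p : Q) (w : Dt E) :
    kap (dD E φ p) (w) = inc (ofZ (G φ (G1 (T p) w))) := by
  set d := dD E φ p with hd
  set g := G1 (T p) w with hg
  have h := comm_fix (m := (R w.1)⁻¹ * L ((T p).1 w.1)) (n := (L (φ.1 p / p))⁻¹ * φ.1)
    ((Mlt Q).mul_mem ((Mlt Q).inv_mem (R_mem _)) (L_mem _))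
    ((Mlt Q).mul_mem ((Mlt Q).inv_mem (L_mem _)) φ.2.1) p
    (by simp only [Equiv.Perm.mul_apply, R_inv_apply, L_apply, T_spec]; simp)
    (by simp only [Equiv.Perm.mul_apply, L_inv_apply]; exact ld_eq (Lp.rd_mul _ _))
  have h3 := congrArg (fun m : Equiv.Perm Q => m 1) h
  simp only [Equiv.Perm.mul_apply, L_apply, Inn.map_one, R_inv_apply, L_inv_apply, Lp.mulo] at h3
  -- ((T_p w) * (d \ 1)) / w = d \ φ (T_p w / w)
  have e1 : (T p).1 w.1 / w.1 = g.1 := rfl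
  have e2 : (φ.1 p / p) \ 1 = (d⁻¹).1 := rfl
  have e3 : (T p).1 w.1 = (inc g * w).1 := (act_val (T p) w).symm
  have e4 : φ.1 p / p = d.1 := rfl
  rw [e1, G_spec, e2, e3, e4, ← Dt.val_mul, Dt_rd] at h3
  have e5 : G φ g • g.1 = (inc (ofZ (G φ g)) * inc g : Dt E).1 := rfl
  rw [e5, Dt_ld] at h3
  have h4 := Dt.ext h3
  rw [mul_assoc (inc g) w, mul_assoc (inc g), inc_comm g, ← mul_assoc d⁻¹] at h4
  have h5 := mul_right_cancel h4
  show d * w * d⁻¹ * w⁻¹ = _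
  calc d * w * d⁻¹ * w⁻¹ = d * (w * d⁻¹ * w⁻¹) := by group
    _ = inc (ofZ (G φ g)) := by rw [h5]; group

theorem disp_comm (φ ψ : Inn Q) (p : Q) : kap (dD E φ p) (dD E ψ p) = 1 := by
  rw [comm_formula, G1_T_disp]; simp

/-- exact exchange, raw form -/
theorem exchD (φ ψ : Inn Q) (p : Q) :
    G1 φ (dD E ψ p)⁻¹ = G1 ψ (dD E φ p)⁻¹ := by
  have h := exch φ ψ p
  set w := dD E φ p with hw
  set v := dD E ψ p with hv
  have hc : w * v = v * w := by
    have h0 : w * v * w⁻¹ * v⁻¹ = 1 := disp_comm (E := E) φ ψ p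
    calc w * v = (w * v * w⁻¹ * v⁻¹) * (v * w) := by group
      _ = v * w := by rw [h0, one_mul]
  change w.1 \ φ.1 (v⁻¹).1 = v.1 \ ψ.1 (w⁻¹).1 at h
  rw [← act_val, ← act_val, Dt_ld, Dt_ld] at h
  have h2 := Dt.ext h
  simp only [act] at h2
  rw [← mul_assoc, ← mul_assoc, ← inc_comm, ← inc_comm, mul_assoc, mul_assoc] at h2
  have hc2 : w⁻¹ * v⁻¹ = v⁻¹ * w⁻¹ := by
    rw [← mul_inv_rev, ← mul_inv_rev, hc]
  rw [hc2] at h2
  exact inc_inj (mul_right_cancel h2)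

/-- exact symmetry -/
theorem G1_symm (φ ψ : Inn Q) (p : Q) (h1 : MultP (E.bar φ) (toAh (dD E ψ p)))
    (h2 : MultP (E.bar ψ) (toAh (dD E φ p))) : G1 φ (dD E ψ p) = G1 ψ (dD E φ p) := by
  have h := exchD (E := E) φ ψ p
  rw [G1_inv φ h1, G1_inv ψ h2] at h
  exact inv_injective h

/-- commutators only depend on images in the quotient -/
theorem comm_congr {w w' v v' : Dt E} (h : toAh w = toAh w') (h' : toAh v = toAh v') :
    kap (w) (v) = kap (w') (v') := by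
  obtain ⟨z, rfl⟩ := exists_z h
  obtain ⟨z', rfl⟩ := exists_z h'
  set a : Dt E := inc (ofZ z) with ha
  set b : Dt E := inc (ofZ z') with hb
  have ca : ∀ x : Dt E, a * x = x * a := inc_comm _
  have cb : ∀ x : Dt E, b * x = x * b := inc_comm _
  simp only [kap, mul_inv_rev]
  have ca' : ∀ x : Dt E, x * a⁻¹ = a⁻¹ * x := fun x => by
    rw [eq_inv_mul_iff_mul_eq, ← mul_assoc, ca, mul_inv_cancel_right]
  have cb' : ∀ x : Dt E, x * b⁻¹ = b⁻¹ * x := fun x => by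
    rw [eq_inv_mul_iff_mul_eq, ← mul_assoc, cb, mul_inv_cancel_right]
  calc a * w' * (b * v') * (w'⁻¹ * a⁻¹) * (v'⁻¹ * b⁻¹)
      = a * w' * (b * v') * (w'⁻¹ * a⁻¹) * (b⁻¹ * v'⁻¹) := by rw [cb' v'⁻¹]
    _ = a * w' * (b * v') * (a⁻¹ * w'⁻¹) * (b⁻¹ * v'⁻¹) := by rw [ca' w'⁻¹]
    _ = a * w' * (b * v') * a⁻¹ * (w'⁻¹ * b⁻¹) * v'⁻¹ := by group
    _ = a * w' * (b * v') * a⁻¹ * (b⁻¹ * w'⁻¹) * v'⁻¹ := by rw [cb' w'⁻¹]
    _ = a * (w' * (b * v') * a⁻¹) * b⁻¹ * w'⁻¹ * v'⁻¹ := by group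
    _ = a * (a⁻¹ * (w' * (b * v'))) * b⁻¹ * w'⁻¹ * v'⁻¹ := by rw [ca' (w' * (b * v'))]
    _ = w' * (b * v') * b⁻¹ * w'⁻¹ * v'⁻¹ := by group
    _ = w' * (v' * b) * b⁻¹ * w'⁻¹ * v'⁻¹ := by rw [cb v']
    _ = w' * v' * w'⁻¹ * v'⁻¹ := by group

theorem comm_inv_left {w v : Dt E} {u : A Q} (h : kap (w) (v) = inc u) : kap (w⁻¹) (v) = inc u⁻¹ := by
  have h1 : w * v * w⁻¹ * v⁻¹ = inc u := h
  have h2 : w * v = inc u * (v * w) := by rw [← h1]; group
  have h3 : w⁻¹ * v * w * v⁻¹ = inc u⁻¹ := by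
    have : w * (w⁻¹ * v * w * v⁻¹) * inc u = w := by
      calc w * (w⁻¹ * v * w * v⁻¹) * inc u = v * w * v⁻¹ * inc u := by group
        _ = (inc u * (v * w)) * v⁻¹ := by rw [← inc_comm, mul_assoc (inc u)]
        _ = w := by rw [← h2]; group
    have h4 : (w⁻¹ * v * w * v⁻¹) * inc u = 1 := by
      have : w * ((w⁻¹ * v * w * v⁻¹) * inc u) = w * 1 := by rw [← mul_assoc, this, mul_one]
      exact mul_left_cancel this
    rw [map_inv]
    exact eq_inv_of_mul_eq_one_left h4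
  rw [kap, inv_inv]; exact h3

theorem comm_swap {w v : Dt E} {u : A Q} (h : kap (w) (v) = inc u) : kap (v) (w) = inc u⁻¹ := by
  rw [map_inv, ← h, kap, kap]; group

end step

section words
variable {Q P : Type} [Lp Q] [Lp P] [Aim Q] [Aim P] [Cl3 P] (E : CExt Q P)

def tauD (v z : Q) : Dt E := dD E (T v) z
def lamD (x y z : Q) : Dt E := dD E (Li x y) z
def rhoD (y z x : Q) : Dt E := dD E (Ri y z) x
def muD (x z y : Q) : Dt E := dD E (Xi x z) y

theorem toAh_tauD (v z : Q) : toAh (tauD E v z) = tau (E.π v) (E.π z) := by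
  rw [tauD, toAh_dD, E.bar_T]; rfl
theorem toAh_lamD (x y z : Q) : toAh (lamD E x y z) = lam (E.π x) (E.π y) (E.π z) := by
  rw [lamD, toAh_dD, E.bar_Li]; rfl
theorem toAh_rhoD (y z x : Q) : toAh (rhoD E y z x) = rho (E.π y) (E.π z) (E.π x) := by
  rw [rhoD, toAh_dD, E.bar_Ri]; rfl
theorem toAh_muD (x z y : Q) : toAh (muD E x z y) = mu (E.π x) (E.π z) (E.π y) := by
  rw [muD, toAh_dD, E.bar_Xi]; rfl

/-- the forms, with values in `A Q` -/
def W (v x y z : Q) : A Q := G1 (T v) (lamD E x y z)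
def F (a b c d e : Q) : A Q := G1 (Li a b) (lamD E c d e)
def t (x y z : Q) : A Q := G1 (T x) (tauD E y z)

theorem toAh_W (v x y z : Q) : toAh (inc (W E v x y z) : Dt E)
    = ofZ (WP (E.π v) (E.π x) (E.π y) (E.π z)) := by
  rw [W, toA_G1, E.bar_T, toAh_lamD]; rfl

theorem toAh_F (a b c d e : Q) : toAh (inc (F E a b c d e) : Dt E)
    = ofZ (FP (E.π a) (E.π b) (E.π c) (E.π d) (E.π e)) := by
  rw [F, toA_G1, E.bar_Li, toAh_lamD]; rfl

theorem toAh_t (x y z : Q) : toAh (inc (t E x y z) : Dt E)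
    = ofZ (tP (E.π x) (E.π y) (E.π z)) := by
  rw [t, toA_G1, E.bar_T, toAh_tauD]; rfl

variable {E} (H : PP P)
include H

theorem muD_lamD (x y z : Q) : toAh (muD E x z y) = toAh (lamD E x y z) := by
  rw [toAh_muD, toAh_lamD, mu_eq H]
theorem rhoD_lamD (x y z : Q) : toAh (rhoD E y z x) = toAh (lamD E x y z)⁻¹ := by
  rw [map_inv, toAh_rhoD, toAh_lamD, rho_eq H]
theorem tauD_inv (v z : Q) : toAh (tauD E v z)⁻¹ = toAh (tauD E z v) := by
  rw [map_inv, toAh_tauD, toAh_tauD, tau_inv H]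

theorem mT_lam (v a b c : Q) : MultP (E.bar (T v)) (toAh (lamD E a b c)) := by
  rw [E.bar_T, toAh_lamD]; exact mult_T_lam H _ _ _ _
theorem mL_lam (x y a b c : Q) : MultP (E.bar (Li x y)) (toAh (lamD E a b c)) := by
  rw [E.bar_Li, toAh_lamD]; exact mult_L_lam H _ _ _ _ _
theorem mR_lam (x y a b c : Q) : MultP (E.bar (Ri x y)) (toAh (lamD E a b c)) := by
  rw [E.bar_Ri, toAh_lamD]; exact mult_R_lam H _ _ _ _ _
theorem mX_lam (x y a b c : Q) : MultP (E.bar (Xi x y)) (toAh (lamD E a b c)) := by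
  rw [E.bar_Xi, toAh_lamD]; exact mult_X_lam H _ _ _ _ _
theorem mL_tau (x y a b : Q) : MultP (E.bar (Li x y)) (toAh (tauD E a b)) := by
  rw [E.bar_Li, toAh_tauD]; exact mult_L_tau H _ _ _ _
theorem mR_tau (x y a b : Q) : MultP (E.bar (Ri x y)) (toAh (tauD E a b)) := by
  rw [E.bar_Ri, toAh_tauD]; exact mult_R_tau H _ _ _ _
theorem mX_tau (x y a b : Q) : MultP (E.bar (Xi x y)) (toAh (tauD E a b)) := by
  rw [E.bar_Xi, toAh_tauD]; exact mult_X_tau H _ _ _ _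

omit H in
theorem MultP.congr {ψ : Inn P} {u v : A P} (h : MultP ψ u) (e : v = u) : MultP ψ v := e ▸ h

theorem mu_of_lam {ψ : Inn P} {x y z : Q} (h : MultP ψ (toAh (lamD E x y z))) :
    MultP ψ (toAh (muD E x z y)) := h.congr (muD_lamD H x y z)
theorem rho_of_lam {ψ : Inn P} {x y z : Q} (h : MultP ψ (toAh (lamD E x y z))) :
    MultP ψ (toAh (rhoD E y z x)) := h.inv.congr (by rw [rhoD_lamD H, map_inv])

/-! values of `G1` -/
theorem gL_tauD (x y v z : Q) : G1 (Li x y) (tauD E v z) = W E v x y z :=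
  G1_symm (Li x y) (T v) z (mL_tau H x y v z) (mT_lam H v x y z)

theorem gX_tauD (x y v z : Q) : G1 (Xi x y) (tauD E v z) = W E v x z y := by
  rw [show W E v x z y = G1 (T v) (muD E x y z) from (G1_congr _ (muD_lamD H x z y)).symm]
  exact G1_symm (Xi x y) (T v) z (mX_tau H x y v z) (mu_of_lam H (mT_lam H v x z y))

theorem gR_tauD (x y v z : Q) : G1 (Ri x y) (tauD E v z) = (W E v z x y)⁻¹ := by
  rw [show (W E v z x y)⁻¹ = G1 (T v) (rhoD E x y z) from by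
    rw [G1_congr _ (rhoD_lamD H z x y), G1_inv _ (mT_lam H v z x y)]; rfl]
  exact G1_symm (Ri x y) (T v) z (mR_tau H x y v z) (rho_of_lam H (mT_lam H v z x y))

theorem gX_lamD (x y a b z : Q) : G1 (Xi x y) (lamD E a b z) = F E a b x z y := by
  rw [show F E a b x z y = G1 (Li a b) (muD E x y z) from (G1_congr _ (muD_lamD H x z y)).symm]
  exact G1_symm (Xi x y) (Li a b) z (mX_lam H x y a b z) (mu_of_lam H (mL_lam H a b x z y))

theorem gR_lamD (x y a b z : Q) : G1 (Ri x y) (lamD E a b z) = (F E a b z x y)⁻¹ := by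
  rw [show (F E a b z x y)⁻¹ = G1 (Li a b) (rhoD E x y z) from by
    rw [G1_congr _ (rhoD_lamD H z x y), G1_inv _ (mL_lam H a b z x y)]; rfl]
  exact G1_symm (Ri x y) (Li a b) z (mR_lam H x y a b z) (rho_of_lam H (mL_lam H a b z x y))

theorem F_s (a b c d e : Q) : F E a b c d e = F E c d a b e :=
  G1_symm (Li a b) (Li c d) e (mL_lam H a b c d e) (mL_lam H c d a b e)

/-! antisymmetry of `W` -/
theorem W14 (v x y z : Q) : W E z x y v = (W E v x y z)⁻¹ := by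
  rw [← gL_tauD H, ← gL_tauD H, ← G1_inv _ (mL_tau H x y v z), G1_congr _ (tauD_inv H v z)]

theorem W13 (v x y z : Q) : W E y x v z = (W E v x y z)⁻¹ := by
  rw [← gX_tauD H, ← gX_tauD H, ← G1_inv _ (mX_tau H x z v y), G1_congr _ (tauD_inv H v y)]

theorem W12 (v x y z : Q) : W E x v y z = (W E v x y z)⁻¹ := by
  have h1 : G1 (Ri y z) (tauD E v x) = (W E v x y z)⁻¹ := gR_tauD H y z v x
  have h2 : G1 (Ri y z) (tauD E x v) = (W E x v y z)⁻¹ := gR_tauD H y z x v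
  rw [← h1, eq_comm, ← inv_inv (W E x v y z), ← h2, ← G1_inv _ (mR_tau H y z x v),
    G1_congr _ (tauD_inv H x v)]

theorem W_s1 (a b c d : Q) : W E b a c d = (W E a b c d)⁻¹ := W12 H a b c d
theorem W_s2 (a b c d : Q) : W E a c b d = (W E a b c d)⁻¹ := by
  rw [W12 H c a b d, W13 H b a c d, W12 H a b c d]; simp
theorem W_s3 (a b c d : Q) : W E a b d c = (W E a b c d)⁻¹ := by
  rw [W13 H d b a c, W14 H c b a d, W13 H a b c d]; simp

theorem W_alt (a c d : Q) : W E a a c d = 1 := by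
  have h := gR_tauD H (E := E) c d a a
  have h1 : tauD E a a = 1 := by
    apply Dt.ext
    show (T a).1 a / a = 1
    simp
  rw [h1, G1_one] at h
  rw [← inv_inj, ← h, inv_one]

end words

end Pool.Agent.helper8.AimL
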