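import Pool.Agent.helper8.Aim.StepA

set_option autoImplicit false
set_option linter.unusedSectionVars false

namespace Pool.Agent.helper8.AimL

section words
variable {Q P : Type} [Lp Q] [Lp P] [Aim Q] [Aim P] [Cl3 P] {E : CExt Q P} (H : PP P)

/-- `G φ` kills elements of `A Q` whose image in `P` is trivial -/
theorem G_toAh_one (φ : Inn Q) {u : A Q} (h : toAh (inc u : Dt E) = 1) : G φ u = 1 := by
  have := G_congr (E := E) φ (u := u) (v := 1) (by rw [h, map_one, map_one])
  rw [this, G_one_right]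

variable (E) in
noncomputable def Ph (v p x y z : Q) : Zc Q := G (T v) (W E p x y z)
variable (E) in
noncomputable def Ps (a b c x y z : Q) : Zc Q := G (Li a b) (W E c x y z)

include H

theorem Ph_kap (v p x y z : Q) :
    kap (tauD E v p) (lamD E x y z) = inc (ofZ (Ph E v p x y z)) := comm_formula (T v) p _

theorem Ps_kap (a b c x y z : Q) :
    kap (lamD E a b c) (lamD E x y z) = inc (ofZ (Ps E a b c x y z)) := comm_formula (Li a b) c _

theorem ofZ_inj {z w : Zc Q} (h : (ofZ z : A Q) = ofZ w) : z = w := Zc.ext (congrArg A.val h)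

theorem Ph_s1 (a b c d e : Q) : Ph E b a c d e = (Ph E a b c d e)⁻¹ := by
  have h1 := Ph_kap H (E := E) a b c d e
  have h2 := comm_inv_left h1
  have h3 := comm_congr (tauD_inv H a b) (rfl : toAh (lamD E c d e) = toAh (lamD E c d e))
  rw [h2, Ph_kap H] at h3
  have h4 := inc_inj h3
  rw [← map_inv] at h4
  exact (ofZ_inj H h4).symm

theorem Ph_s2 (a b c d e : Q) : Ph E a c b d e = (Ph E a b c d e)⁻¹ := by
  rw [Ph, W_s1 H, G_inv_right]; rfl
theorem Ph_s3 (a b c d e : Q) : Ph E a b d c e = (Ph E a b c d e)⁻¹ := by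
  rw [Ph, W_s2 H, G_inv_right]; rfl
theorem Ph_s4 (a b c d e : Q) : Ph E a b c e d = (Ph E a b c d e)⁻¹ := by
  rw [Ph, W_s3 H, G_inv_right]; rfl

theorem Ps_s3 (a b c d e f : Q) : Ps E a b d c e f = (Ps E a b c d e f)⁻¹ := by
  rw [Ps, W_s1 H, G_inv_right]; rfl
theorem Ps_s4 (a b c d e f : Q) : Ps E a b c e d f = (Ps E a b c d e f)⁻¹ := by
  rw [Ps, W_s2 H, G_inv_right]; rfl
theorem Ps_s5 (a b c d e f : Q) : Ps E a b c d f e = (Ps E a b c d e f)⁻¹ := by
  rw [Ps, W_s3 H, G_inv_right]; rfl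

theorem Ps_swap (a b c d e f : Q) : Ps E d e f a b c = (Ps E a b c d e f)⁻¹ := by
  have h1 := comm_swap (Ps_kap H (E := E) a b c d e f)
  rw [Ps_kap H, ← map_inv] at h1
  exact ofZ_inj H (inc_inj h1)

theorem Ps_s1 (a b c d e f : Q) : Ps E b a c d e f = (Ps E a b c d e f)⁻¹ := by
  rw [Ps_swap H d e f b a c, Ps_s4 H, Ps_swap H a b c d e f]; simp
theorem Ps_s2 (a b c d e f : Q) : Ps E a c b d e f = (Ps E a b c d e f)⁻¹ := by
  rw [Ps_swap H d e f a c b, Ps_s5 H, Ps_swap H a b c d e f]; simp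

theorem Ps_alt3 (a b c e f : Q) : Ps E a b c c e f = 1 := by
  rw [Ps, W_alt H]; simp

/-! pentagon and swap for `W` -/
theorem pentD (x y z r : Q) : toAh (lamD E x y (z * r) * lamD E (x * y) z r)
    = toAh (inc (W E x y z r) * (lamD E y z r * (lamD E x (y * z) r * lamD E x y z)) : Dt E) := by
  rw [map_mul, map_mul, map_mul, map_mul, toAh_W]
  simp only [toAh_lamD, E.mul]
  rw [pentagon H]
  simp only [mul_assoc]

theorem swapD (x' x y z : Q) : toAh (lamD E (x' * x) y z)
    = toAh (inc (W E x' x y z) * lamD E (x * x') y z : Dt E) := by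
  rw [map_mul, toAh_W]
  simp only [toAh_lamD, E.mul]
  rw [mul_swap H (E.π x') (E.π x), lam_tau H]

theorem W_pent (v x y z r : Q) : W E v x y (z * r) * W E v (x * y) z r
    = ofZ (Ph E v x y z r) * (W E v y z r * (W E v x (y * z) r * W E v x y z)) := by
  have h := G1_congr (T v) (pentD H (E := E) x y z r)
  rw [G1_mul _ (mT_lam H _ _ _ _), G1_inc_mul, G1_mul _ (mT_lam H _ _ _ _),
    G1_mul _ (mT_lam H _ _ _ _)] at h
  exact h

theorem W_swap (v x' x y z : Q) : W E v (x' * x) y z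
    = ofZ (Ph E v x' x y z) * W E v (x * x') y z := by
  have h := G1_congr (T v) (swapD H (E := E) x' x y z)
  rw [G1_inc_mul] at h
  exact h

theorem F_pent (v' v x y z r : Q) : F E v' v x y (z * r) * F E v' v (x * y) z r
    = ofZ (Ps E v' v x y z r) * (F E v' v y z r * (F E v' v x (y * z) r * F E v' v x y z)) := by
  have h := G1_congr (Li v' v) (pentD H (E := E) x y z r)
  rw [G1_mul _ (mL_lam H _ _ _ _ _), G1_inc_mul, G1_mul _ (mL_lam H _ _ _ _ _),
    G1_mul _ (mL_lam H _ _ _ _ _)] at h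
  exact h

theorem F_swap (v' v x' x y z : Q) : F E v' v (x' * x) y z
    = ofZ (Ps E v' v x' x y z) * F E v' v (x * x') y z := by
  have h := G1_congr (Li v' v) (swapD H (E := E) x' x y z)
  rw [G1_inc_mul] at h
  exact h

/-- transfer of `alg1` to multiplicative notation -/
theorem alg1_mul {X B : Type} [Mul X] [CommGroup B] (W : X → X → X → X → B)
    (Φ : X → X → X → X → X → B)
    (s1 : ∀ a b c d, W b a c d = (W a b c d)⁻¹)
    (s2 : ∀ a b c d, W a c b d = (W a b c d)⁻¹)
    (s3 : ∀ a b c d, W a b d c = (W a b c d)⁻¹)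
    (p1 : ∀ a b c d e, Φ b a c d e = (Φ a b c d e)⁻¹)
    (p2 : ∀ a b c d e, Φ a c b d e = (Φ a b c d e)⁻¹)
    (p3 : ∀ a b c d e, Φ a b d c e = (Φ a b c d e)⁻¹)
    (p4 : ∀ a b c d e, Φ a b c e d = (Φ a b c d e)⁻¹)
    (pent : ∀ v x y z r, W v x y (z * r) * W v (x * y) z r
      = Φ v x y z r * (W v y z r * (W v x (y * z) r * W v x y z)))
    (swap : ∀ v x' x y z, W v (x' * x) y z = Φ v x' x y z * W v (x * x') y z) :
    (∀ a b c d e, Φ a b c d e = 1) ∧
      (∀ a a' b c d, W (a * a') b c d = W a b c d * W a' b c d) := by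
  exact alg1 (B := Additive B) (fun a b c d => Additive.ofMul (W a b c d))
    (fun a b c d e => Additive.ofMul (Φ a b c d e)) s1 s2 s3 p1 p2 p3 p4
    (fun v x y z r => by
      have := pent v x y z r
      change Additive.ofMul (W v x y (z * r) * W v (x * y) z r) = _
      rw [this]
      simp only [ofMul_mul]
      abel)
    (fun v x' x y z => by
      have := swap v x' x y z
      change Additive.ofMul (W v (x' * x) y z) = _
      rw [this]
      simp only [ofMul_mul]
      abel)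

theorem Ph_one_and_W_add : (∀ a b c d e : Q, Ph E a b c d e = 1) ∧
    (∀ a a' b c d : Q, W E (a * a') b c d = W E a b c d * W E a' b c d) := by
  have h := alg1_mul H (W E) (fun a b c d e => ofZ (Ph E a b c d e))
    (W_s1 H) (W_s2 H) (W_s3 H)
    (fun a b c d e => by rw [Ph_s1 H, map_inv])
    (fun a b c d e => by rw [Ph_s2 H, map_inv])
    (fun a b c d e => by rw [Ph_s3 H, map_inv])
    (fun a b c d e => by rw [Ph_s4 H, map_inv])
    (W_pent H) (W_swap H)
  exact ⟨fun a b c d e => ofZ_inj H (by rw [h.1, map_one]), h.2⟩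

theorem Ph_one (a b c d e : Q) : Ph E a b c d e = 1 := (Ph_one_and_W_add H).1 a b c d e

theorem W_Alt4 : Alt4 (W E) :=
  ⟨W_s1 H, W_s2 H, W_s3 H, W_alt H, (Ph_one_and_W_add H).2⟩

/-! second order terms -/

/-- `Ξ` in terms of the others at second level -/
theorem GT_mul (x y : Q) (u : A Q) :
    G (T (x * y)) u * G (Li x y) u = G (Ri x y) u * G (T x) u * G (Xi x y) u * G (T y) u := by
  have h := congrArg (fun φ => G φ u) (T_mul x y)
  simpa only [G_mul_left] using h

theorem GR_W (a b c x y z : Q) : G (Ri a b) (W E c x y z) = (Ps E c a b x y z)⁻¹ := by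
  have h1 : kap (rhoD E a b c) (lamD E x y z) = inc (ofZ (G (Ri a b) (W E c x y z))) :=
    comm_formula (Ri a b) c _
  have h2 := comm_inv_left (Ps_kap H (E := E) c a b x y z)
  have h3 := comm_congr (rhoD_lamD H c a b) (rfl : toAh (lamD E x y z) = toAh (lamD E x y z))
  rw [h1, h2, ← map_inv] at h3
  exact ofZ_inj H (inc_inj h3)

theorem GX_W (a b c x y z : Q) : G (Xi a b) (W E c x y z) = Ps E a c b x y z := by
  have h1 : kap (muD E a b c) (lamD E x y z) = inc (ofZ (G (Xi a b) (W E c x y z))) :=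
    comm_formula (Xi a b) c _
  have h3 := comm_congr (muD_lamD H a c b) (rfl : toAh (lamD E x y z) = toAh (lamD E x y z))
  rw [h1, Ps_kap H] at h3
  exact ofZ_inj H (inc_inj h3)

end words

end Pool.Agent.helper8.AimL
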