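import Pool.Agent.helper8.Aim.StepB

set_option autoImplicit false
set_option linter.unusedSectionVars false

namespace Pool.Agent.helper8.AimL

section words
variable {Q P : Type} [Lp Q] [Lp P] [Aim Q] [Aim P] [Cl3 P] {E : CExt Q P} (H : PP P)
include H

theorem Ps_alt45 (a b c d f : Q) : Ps E a b c d d f = 1 := by
  rw [Ps, (W_Alt4 H).alt23]; simp
theorem Ps_alt12 (a b d e f : Q) : Ps E a a b d e f = 1 := by
  rw [Ps_swap H d e f a a b, Ps_alt45 H]; simp
theorem Ps_alt13 (a b d e f : Q) : Ps E a b a d e f = 1 := by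
  rw [Ps_s2 H a a b d e f, Ps_alt12 H]; simp
theorem Ps_alt23 (a b d e f : Q) : Ps E a b b d e f = 1 := by
  rw [Ps_s1 H b a b d e f, Ps_alt13 H]; simp

theorem J1 (x y z z' p : Q) : F E x y z z' p * F E x y p z z' = F E x y z p z' := by
  have h : G1 (T (z * z') * Li z z') (lamD E x y p)
      = G1 (Ri z z' * T z * Xi z z' * T z') (lamD E x y p) :=
    congrArg (fun φ => G1 φ (lamD E x y p)) (T_mul z z')
  -- left side
  have l1 : G (T (z * z')) (G1 (Li z z') (lamD E x y p)) = 1 := by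
    rw [G_G1_symm]
    change Ps E z z' (z * z') x y p = 1
    rw [Ps, (W_Alt4 H).add1, G_mul_right]
    change Ps E z z' z x y p * Ps E z z' z' x y p = 1
    rw [Ps_alt13 H, Ps_alt23 H, one_mul]
  have r1 : G (Ri z z' * T z * Xi z z') (G1 (T z') (lamD E x y p)) = 1 := by
    change G (Ri z z' * T z * Xi z z') (W E z' x y p) = 1
    rw [G_mul_left, G_mul_left, GR_W H, GX_W H]
    change (Ps E z' z z' x y p)⁻¹ * Ph E z z' x y p * Ps E z z' z' x y p = 1
    rw [Ps_alt13 H, Ps_alt23 H, Ph_one H]; simp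
  have r2 : G (Ri z z' * T z) (G1 (Xi z z') (lamD E x y p)) = 1 := by
    rw [G_mul_left, G_G1_symm (T z)]
    change _ * G (Xi z z') (W E z x y p) = 1
    rw [GX_W H, Ps_alt12 H, mul_one, gX_lamD H]
    change G (Ri z z') (G1 (Li x y) (lamD E z p z')) = 1
    rw [G_G1_symm, gR_lamD H, G_inv_right, G_toAh_one (E := E)]
    · simp
    · rw [toAh_F, H.hF.alt14]; simp
  have r3 : G (Ri z z') (G1 (T z) (lamD E x y p)) = 1 := by
    change G (Ri z z') (W E z x y p) = 1
    rw [GR_W H, Ps_alt12 H]; simp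
  rw [G1_mul_left, l1, G1_mul_left, r1, G1_mul_left, r2, G1_mul_left, r3] at h
  simp only [map_one, mul_one] at h
  change W E (z * z') x y p * F E z z' x y p = _ * W E z x y p * _ * W E z' x y p at h
  rw [(W_Alt4 H).add1, gR_lamD H, gX_lamD H, F_s H] at h
  -- W z * W z' * F x y z z' p = (F x y p z z')⁻¹ * W z * F x y z p z' * W z'
  have h2 : (W E z x y p * W E z' x y p) * (F E x y z z' p * F E x y p z z')
      = (W E z x y p * W E z' x y p) * F E x y z p z' := by
    rw [← mul_assoc, h]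
    generalize W E z x y p = a
    generalize W E z' x y p = b
    generalize F E x y p z z' = c
    generalize F E x y z p z' = d
    calc c⁻¹ * a * d * b * c = (c⁻¹ * c) * (a * b * d) := by
          simp only [mul_assoc, mul_comm, mul_left_comm]
      _ = a * b * d := by rw [inv_mul_cancel, one_mul]
  exact mul_left_cancel h2

theorem alg2_mul {X B : Type} [CommGroup B] (F : X → X → X → X → X → B)
    (s : ∀ a b c d e, F a b c d e = F c d a b e)
    (J : ∀ a b c d e, F a b c d e * F a b e c d = F a b c e d) :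
    (∀ a b c d e, F b a c d e = (F a b c d e)⁻¹) ∧
    (∀ a b c d e, F a c b d e = (F a b c d e)⁻¹) ∧
    (∀ a b c d e, F a b d c e = (F a b c d e)⁻¹) ∧
    (∀ a b c d e, F a b c e d = (F a b c d e)⁻¹) ∧
    (∀ a b c d e, (F a b c d e) ^ 3 = 1) ∧
    (∀ a c d e, F a a c d e = 1) := by
  exact alg2 (B := Additive B) (fun a b c d e => Additive.ofMul (F a b c d e)) s
    (fun a b c d e => by
      have := J a b c d e
      change _ - Additive.ofMul (F a b c e d) + _ = 0
      rw [← this, ofMul_mul]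
      abel)

theorem F_alg : (∀ a b c d e : Q, F E b a c d e = (F E a b c d e)⁻¹) ∧
    (∀ a b c d e : Q, F E a c b d e = (F E a b c d e)⁻¹) ∧
    (∀ a b c d e : Q, F E a b d c e = (F E a b c d e)⁻¹) ∧
    (∀ a b c d e : Q, F E a b c e d = (F E a b c d e)⁻¹) ∧
    (∀ a b c d e : Q, (F E a b c d e) ^ 3 = 1) ∧
    (∀ a c d e : Q, F E a a c d e = 1) :=
  alg2_mul H (F E) (F_s H) (J1 H)

theorem Ps_one_and_F_add (v : Q) : (∀ a b c d e : Q, Ps E v a b c d e = 1) ∧
    (∀ a a' b c d : Q, F E v (a * a') b c d = F E v a b c d * F E v a' b c d) := by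
  obtain ⟨f1, f2, f3, f4, f5, f6⟩ := F_alg H (E := E)
  have h := alg1_mul H (F E v) (fun a b c d e => ofZ (Ps E v a b c d e))
    (fun a b c d => f2 v a b c d) (fun a b c d => f3 v a b c d) (fun a b c d => f4 v a b c d)
    (fun a b c d e => by rw [Ps_s2 H, map_inv])
    (fun a b c d e => by rw [Ps_s3 H, map_inv])
    (fun a b c d e => by rw [Ps_s4 H, map_inv])
    (fun a b c d e => by rw [Ps_s5 H, map_inv])
    (F_pent H v) (F_swap H v)
  exact ⟨fun a b c d e => ofZ_inj H (by rw [h.1, map_one]), h.2⟩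

theorem Ps_one (a b c d e f : Q) : Ps E a b c d e f = 1 := (Ps_one_and_F_add H a).1 b c d e f

theorem F_Alt5 : Alt5 (F E) := by
  obtain ⟨f1, f2, f3, f4, f5, f6⟩ := F_alg H (E := E)
  refine ⟨f1, f2, f3, f4, f6, fun a a' b c d e => ?_, f5⟩
  rw [f1 b (a * a') c d e, (Ps_one_and_F_add H b).2, f1 b a, f1 b a']
  simp [mul_comm]

/-! centrality of `W` and `F` -/

theorem F_lam_one (a b c d x y z : Q) : F E a b c d ((lamD E x y z).1) = 1 := by
  have hF := F_Alt5 H (E := E)
  have h1 : (lamD E x y z).1 * z = (Li x y).1 z := Lp.rd_mul _ _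
  have h2 := congrArg (F E a b c d) (Li_spec x y z)
  rw [hF.add5, hF.add5, hF.add5, hF.add5, ← h1, hF.add5] at h2
  -- F x * F y * (F l * F z) = F x * (F y * F z)
  rw [mul_assoc] at h2
  have h3 := mul_left_cancel (mul_left_cancel h2)
  exact mul_eq_right.mp h3

theorem GL_F (x y a b c d e : Q) : G (Li x y) (F E a b c d e) = 1 := by
  have h := F_lam_one H (E := E) x y a b c d e
  have h2 : lamD E a b (lamD E c d e).1 = inc (G1 (Li a b) (lamD E c d e)) := Dt.ext rfl
  rw [F, h2, G1_inc] at h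
  exact ofZ_inj H (by rw [map_one]; exact h)

theorem GT_F (x a b c d e : Q) : G (T x) (F E a b c d e) = 1 := by
  rw [F, G_G1_symm]
  exact Ps_one H (E := E) a b x c d e

theorem GR_F (x y a b c d e : Q) : G (Ri x y) (F E a b c d e) = 1 := by
  rw [F, G_G1_symm, gR_lamD H, G_inv_right, GL_F H, inv_one]

theorem cen_of_G {u : A Q} (h1 : ∀ x, G (T x) u = 1) (h2 : ∀ x y, G (Li x y) u = 1)
    (h3 : ∀ x y, G (Ri x y) u = 1) : IsCen u.1 := by
  apply isCen_of_fix
  · intro x; rw [G_spec, h1, one_smul]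
  · intro x y; rw [G_spec, h2, one_smul]
  · intro x y; rw [G_spec, h3, one_smul]

theorem F_cen (a b c d e : Q) : IsCen (F E a b c d e).1 :=
  cen_of_G H (fun x => GT_F H x a b c d e) (fun x y => GL_F H x y a b c d e)
    (fun x y => GR_F H x y a b c d e)

theorem W_cen (v x y z : Q) : IsCen (W E v x y z).1 :=
  cen_of_G H (fun a => Ph_one H a v x y z) (fun a b => Ps_one H a b v x y z)
    (fun a b => by rw [GR_W H, Ps_one H, inv_one])

/-! the form `t` -/

theorem t_swap13 (x y z : Q) : t E x z y = t E y z x := by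
  have h := exchD (E := E) (T x) (T y) z
  change G1 (T x) (tauD E y z)⁻¹ = G1 (T y) (tauD E x z)⁻¹ at h
  rw [G1_congr _ (tauD_inv H y z), G1_congr _ (tauD_inv H x z)] at h
  exact h

theorem md_tau_self (x y z : P) : md (T x) (tau y z) z = 1 := by
  have e := md_dA (T y) (T x) z z
  have g : ∀ p, Gam (T y) (T x) p = tP y x p := fun _ => rfl
  rw [g, g, t_add3 H, H.hW.alt12] at e
  change md (T x) (tau y z) z = _ at e
  rw [e]; simp

theorem t_anti (x y z : Q) : t E x z y = (t E x y z)⁻¹ := by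
  set w := tauD E y z with hw
  set w' := tauD E z y with hw'
  -- the inner mapping theta
  set θ : Inn Q := (T x)⁻¹ * tw (T x) w.1 with hθ
  have hz : (E.bar θ).1 (E.π z) = E.π z := by
    rw [← E.bar_spec]
    show E.π ((T x).1⁻¹ ((tw (T x) w.1).1 z)) = E.π z
    have e1 : E.π ((tw (T x) w.1).1 z) = E.π ((T x).1 z) := by
      apply lcan (a := E.π ((T x).1 w.1))
      rw [← E.mul, ← tw_spec, E.bar_spec, E.mul, ← toAh_val w, hw, toAh_tauD, E.bar_spec,
        E.bar_spec, ← toAh_val, toAh_tauD, E.bar_T]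
      change (T (E.π x)).1 (tau (E.π y) (E.π z) • E.π z) = _
      rw [md_spec, md_tau_self H, one_smul, G_spec, zmul]; rfl
    obtain ⟨c, hc⟩ := E.ker _ _ e1
    rw [hc]
    have e2 : (T x).1⁻¹ (c • (T x).1 z) = c • z := by
      rw [Equiv.Perm.inv_eq_iff_eq, inn_z]
    rw [e2, E.kz]
  have hd : toAh (dD E θ z) = 1 := by
    rw [toAh_dD]
    apply dA_uniq
    rw [hz, one_smul]
  have h1 : G1 θ (dD E (T y) z)⁻¹ = 1 := by
    rw [exchD (E := E) θ (T y) z, G1_congr (T y) (v := 1) (by rw [map_inv, hd]; simp)]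
    simp
  have h2 : G1 θ w' = 1 := by
    rw [← h1]
    exact (G1_congr _ (tauD_inv H y z)).symm
  have h3 : (tw (T x) w.1).1 w'.1 = (T x).1 w'.1 := by
    have e3 : θ.1 w'.1 = w'.1 := by rw [G1_spec, h2, one_smul]
    have e4 : (T x).1⁻¹ ((tw (T x) w.1).1 w'.1) = w'.1 := e3
    rwa [Equiv.Perm.inv_eq_iff_eq] at e4
  have h4 : (T x).1 (w.1 * w'.1) = (T x).1 w.1 * (T x).1 w'.1 := by
    rw [tw_spec, h3]
  have h5 : act (T x) (w * w') = act (T x) w * act (T x) w' := by
    apply Dt.ext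
    rw [Dt.val_mul, act_val, act_val, act_val]; exact h4
  have h6 : toAh (w * w') = 1 := by
    rw [map_mul, hw, hw', toAh_tauD, toAh_tauD, PL1 H]
  have h7 : G1 (T x) (w * w') = 1 := by
    rw [G1_congr (T x) (v := 1) (by rw [h6]; simp)]
    simp
  simp only [act] at h5
  rw [h7, map_one, one_mul] at h5
  have h8 : inc (G1 (T x) w) * w * (inc (G1 (T x) w') * w')
      = inc (G1 (T x) w * G1 (T x) w') * (w * w') := by
    rw [map_mul, mul_assoc, ← mul_assoc w, ← inc_comm, mul_assoc, mul_assoc]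
  rw [h8] at h5
  have h9 : (inc (G1 (T x) w * G1 (T x) w') : Dt E) = 1 := by
    have : (1 : Dt E) * (w * w') = inc (G1 (T x) w * G1 (T x) w') * (w * w') := by
      rw [one_mul]; exact h5
    exact (mul_right_cancel this).symm
  have h10 : G1 (T x) w * G1 (T x) w' = 1 := inc_inj (E := E) (by rw [h9, map_one])
  rw [eq_inv_iff_mul_eq_one, mul_comm]
  exact h10

omit H in
variable (E) in
/-- second-level form -/
noncomputable def TT (x x' y z : Q) : Zc Q := G (T x) (t E x' y z)

theorem TT_kap (x x' y z : Q) :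
    kap (tauD E x x') (tauD E y z) = inc (ofZ (TT E x x' y z)) := comm_formula (T x) x' _

theorem TT_s1 (x x' y z : Q) : TT E x' x y z = (TT E x x' y z)⁻¹ := by
  have h2 := comm_inv_left (TT_kap H (E := E) x x' y z)
  have h3 := comm_congr (tauD_inv H x x') (rfl : toAh (tauD E y z) = toAh (tauD E y z))
  rw [h2, TT_kap H, ← map_inv] at h3
  exact (ofZ_inj H (inc_inj h3)).symm

theorem TT_two (x x' y z : Q) : TT E x x' y z ^ 2 = 1 := by
  have h : toAh (inc (t E x' y z ^ 2) : Dt E) = 1 := by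
    rw [map_pow, map_pow, toAh_t, ← map_pow, H.t_two, map_one]
  have h2 := G_toAh_one (E := E) (T x) h
  rw [pow_two, G_mul_right] at h2
  rw [pow_two]; exact h2

theorem GL_t (x y z v p : Q) : G (Li x y) (t E z v p) = 1 := by
  have h1 : kap (lamD E x y z) (tauD E v p) = inc (ofZ (G (Li x y) (t E z v p))) :=
    comm_formula (Li x y) z _
  have h2 := comm_swap (Ph_kap H (E := E) v p x y z)
  rw [h1, Ph_one H] at h2
  have h3 := inc_inj h2
  exact ofZ_inj H (by rw [h3]; simp)

theorem GR_t (x y z v p : Q) : G (Ri x y) (t E z v p) = 1 := by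
  have h1 : kap (rhoD E x y z) (tauD E v p) = inc (ofZ (G (Ri x y) (t E z v p))) :=
    comm_formula (Ri x y) z _
  have h2 := comm_inv_left (comm_swap (Ph_kap H (E := E) v p z x y))
  have h3 := comm_congr (rhoD_lamD H z x y) (rfl : toAh (tauD E v p) = toAh (tauD E v p))
  rw [h1, h2, Ph_one H] at h3
  have h4 := inc_inj h3
  exact ofZ_inj H (by rw [h4]; simp)

theorem GX_t (x y z v p : Q) : G (Xi x y) (t E z v p) = 1 := by
  have h1 : kap (muD E x y z) (tauD E v p) = inc (ofZ (G (Xi x y) (t E z v p))) :=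
    comm_formula (Xi x y) z _
  have h2 := comm_swap (Ph_kap H (E := E) v p x z y)
  have h3 := comm_congr (muD_lamD H x z y) (rfl : toAh (tauD E v p) = toAh (tauD E v p))
  rw [h1, h2, Ph_one H] at h3
  have h4 := inc_inj h3
  exact ofZ_inj H (by rw [h4]; simp)

theorem t_addQ (x x' y z : Q) : t E (x * x') y z * W E y z x x' ^ 3
    = t E x y z * t E x' y z * ofZ (TT E x x' y z) := by
  have h : G1 (T (x * x') * Li x x') (tauD E y z)
      = G1 (Ri x x' * T x * Xi x x' * T x') (tauD E y z) :=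
    congrArg (fun φ => G1 φ (tauD E y z)) (T_mul x x')
  have l1 : G (T (x * x')) (G1 (Li x x') (tauD E y z)) = 1 := by
    rw [gL_tauD H]; exact Ph_one H _ _ _ _ _
  have r1 : G (Ri x x' * T x * Xi x x') (G1 (T x') (tauD E y z)) = TT E x x' y z := by
    change G (Ri x x' * T x * Xi x x') (t E x' y z) = _
    rw [G_mul_left, G_mul_left, GR_t H, GX_t H, one_mul, mul_one]; rfl
  have r2 : G (Ri x x' * T x) (G1 (Xi x x') (tauD E y z)) = 1 := by
    rw [gX_tauD H, G_mul_left, GR_W H, Ps_one H, inv_one, one_mul]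
    exact Ph_one H _ _ _ _ _
  have r3 : G (Ri x x') (G1 (T x) (tauD E y z)) = 1 := GR_t H _ _ _ _ _
  rw [G1_mul_left, l1, G1_mul_left, r1, G1_mul_left, r2, G1_mul_left, r3] at h
  simp only [map_one, mul_one] at h
  rw [gL_tauD H, gR_tauD H, gX_tauD H] at h
  change t E (x * x') y z * W E y x x' z = (W E y z x x')⁻¹ * t E x y z * W E y x z x'
    * t E x' y z * _ at h
  have hW := W_Alt4 H (E := E)
  have w1 : W E y x x' z = W E y z x x' := by rw [hW.s3 y x z x', hW.s2 y z x x']; simp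
  have w2 : W E y x z x' = (W E y z x x')⁻¹ := hW.s2 y z x x'
  rw [w1, w2] at h
  generalize ofZ (TT E x x' y z) = q at h ⊢
  generalize W E y z x x' = w at h ⊢
  generalize t E (x * x') y z = a at h ⊢
  generalize t E x y z = b at h ⊢
  generalize t E x' y z = c at h ⊢
  calc a * w ^ 3 = (a * w) * w ^ 2 := by rw [pow_succ' w 2, ← mul_assoc]
    _ = (w⁻¹ * b * w⁻¹ * c * q) * w ^ 2 := by rw [h]
    _ = (w⁻¹ * w) * (w⁻¹ * w) * (b * c * q) := by
        rw [pow_two]; simp only [mul_assoc, mul_comm, mul_left_comm]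
    _ = b * c * q := by simp

theorem t_swapQ (z y x' x : Q) : t E z y (x' * x)
    = t E z y (x * x') * ofZ (TT E z y x' x) := by
  have h : toAh (tauD E y (x' * x)) = toAh (inc (t E y x' x) * tauD E y (x * x')) := by
    rw [map_mul, toAh_t]
    simp only [toAh_tauD, E.mul]
    exact tau_swap H _ _ _
  have h2 := G1_congr (T z) h
  rw [G1_inc_mul, mul_comm] at h2
  exact h2

theorem alg3_mul {X B : Type} [Mul X] [CommGroup B] (t : X → X → X → B)
    (W T : X → X → X → X → B)
    (t1 : ∀ x y z, t x z y = t y z x)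
    (t2 : ∀ x y z, t x z y = (t x y z)⁻¹)
    (w : ∀ a b c d, W a b d c = (W a b c d)⁻¹)
    (T1 : ∀ a b c d, T b a c d = (T a b c d)⁻¹)
    (T2 : ∀ a b c d, (T a b c d) ^ 2 = 1)
    (add : ∀ x x' y z, t (x * x') y z * W y z x x' ^ 3 = t x y z * t x' y z * T x x' y z)
    (sw : ∀ z y x' x, t z y (x' * x) = t z y (x * x') * T z y x' x) :
    (∀ a b c d, (W a b c d) ^ 6 = 1) ∧ (∀ a b c d, T a b c d = 1) ∧
    (∀ x y z, t x y z = t y x z) ∧ (∀ x y z, (t x y z) ^ 2 = 1) := by
  exact alg3 (B := Additive B) (fun x y z => Additive.ofMul (t x y z))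
    (fun a b c d => Additive.ofMul (W a b c d)) (fun a b c d => Additive.ofMul (T a b c d))
    t1 t2 w T1 T2
    (fun x x' y z => by
      have h : Additive.ofMul (t (x * x') y z * W y z x x' ^ 3)
        = Additive.ofMul (t x y z * t x' y z * T x x' y z) := congrArg _ (add x x' y z)
      simp only [ofMul_mul, ofMul_pow] at h
      show Additive.ofMul (t (x * x') y z) = _
      rw [eq_sub_of_add_eq h]; abel)
    (fun z y x' x => by
      have := sw z y x' x
      change Additive.ofMul (t z y (x' * x)) = _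
      rw [this, ofMul_mul])

theorem t_alg : (∀ a b c d : Q, (W E a b c d) ^ 6 = 1) ∧
    (∀ a b c d : Q, TT E a b c d = 1) ∧
    (∀ x y z : Q, t E x y z = t E y x z) ∧ (∀ x y z : Q, (t E x y z) ^ 2 = 1) := by
  have h := alg3_mul H (t E) (W E) (fun a b c d => ofZ (TT E a b c d))
    (t_swap13 H) (t_anti H) (W_s3 H)
    (fun a b c d => by rw [TT_s1 H, map_inv])
    (fun a b c d => by rw [← map_pow, TT_two H, map_one])
    (t_addQ H) (t_swapQ H)
  exact ⟨h.1, fun a b c d => ofZ_inj H (by rw [h.2.1, map_one]), h.2.2.1, h.2.2.2⟩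

theorem t_cen (x y z : Q) : IsCen (t E x y z).1 :=
  cen_of_G H (fun a => (t_alg H).2.1 a x y z) (fun a b => GL_t H a b x y z)
    (fun a b => GR_t H a b x y z)

end words

end Pool.Agent.helper8.AimL
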